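import Pool.Agent.H857.SG.Core

/-!
# Task SG B7a: exponents for the relations between two roots (helper79)
-/

set_option autoImplicit false

namespace Pool.Agent.H79.SGB7a

open Module Polynomial Pool.Agent.W521.Descent Pool.Agent.W521.Density Pool.Agent.W521.Count
  Pool.Agent.X297.UB Pool.Agent.H857.PB Pool.Agent.H857.PA Pool.Agent.H857.HK Pool.Agent.H857.EF
  Pool.Agent.H857.WT Pool.Agent.H857.SG

theorem b7a : B7a := by
  classical
  intro g
  refine ⟨∏ ζ ∈ (rou_finite ((2 * g) ^ 2)).toFinset, orderOf ζ, ?_, ?_⟩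
  · apply Finset.prod_pos
    intro ζ hζ
    rw [Set.Finite.mem_toFinset] at hζ
    obtain ⟨⟨n, hn, h1⟩, -⟩ := hζ
    exact orderOf_pos_iff.2 (isOfFinOrder_iff_pow_eq_one.2 ⟨n, hn, h1⟩)
  · intro q hq f hf y z hy hz hyz
    have hq0 : (q : ℂ) ≠ 0 := by exact_mod_cast hq.ne'
    obtain ⟨N, hN, hrel⟩ := hyz
    obtain ⟨hmon, hdeg, -, -⟩ := hf
    have hx : ∀ i : Fin 2, IsIntegral ℚ ((![y, z] : Fin 2 → ℂ) i) ∧
        (minpoly ℚ ((![y, z] : Fin 2 → ℂ) i)).natDegree ≤ 2 * g := by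
      intro i
      fin_cases i
      · have := root_data hmon hy
        rw [hdeg] at this
        exact this
      · have := root_data hmon hz
        rw [hdeg] at this
        exact this
    obtain ⟨h1, h2⟩ := finrank_adjoin_le (![y, z] : Fin 2 → ℂ) (2 * g) (fun i => (hx i).1)
      (fun i => (hx i).2) Finset.univ
    have hmem : ∀ i : Fin 2, (![y, z] : Fin 2 → ℂ) i ∈
        IntermediateField.adjoin ℚ ((![y, z] : Fin 2 → ℂ) '' (Finset.univ : Finset (Fin 2))) :=
      fun i => IntermediateField.subset_adjoin _ _ ⟨i, by simp, rfl⟩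
    have h3 : y * z / (q : ℂ) ∈
        IntermediateField.adjoin ℚ ((![y, z] : Fin 2 → ℂ) '' (Finset.univ : Finset (Fin 2))) :=
      div_mem (mul_mem (hmem 0) (hmem 1)) (natCast_mem _ q)
    have h4 : y * z / (q : ℂ) ∈ rou ((2 * g) ^ 2) := by
      refine ⟨⟨N, hN, ?_⟩, ?_⟩
      · rw [div_pow, hrel, div_self (pow_ne_zero _ hq0)]
      · refine (natDegree_minpoly_le _ h3).trans (h2.trans ?_)
        simp
    have h5 : orderOf (y * z / (q : ℂ)) ∣
        ∏ ζ ∈ (rou_finite ((2 * g) ^ 2)).toFinset, orderOf ζ :=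
      Finset.dvd_prod_of_mem _ ((rou_finite ((2 * g) ^ 2)).mem_toFinset.2 h4)
    have h6 := orderOf_dvd_iff_pow_eq_one.1 h5
    rw [div_pow, div_eq_one_iff_eq (pow_ne_zero _ hq0)] at h6
    exact h6

end Pool.Agent.H79.SGB7a
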