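import Pool.Agent.H857.SG.Core
import Pool.Agent.H857.EF.P.S11

/-!
# The relations between the powers of the roots: B7c (for helper857)
-/

set_option autoImplicit false

namespace Pool.Agent.H333.SG

open Module Polynomial Pool.Agent.W521.Descent Pool.Agent.W521.Density Pool.Agent.W521.Count
  Pool.Agent.X297.UB Pool.Agent.H857.PB Pool.Agent.H857.PA Pool.Agent.H857.HK Pool.Agent.H857.EF
  Pool.Agent.H857.WT Pool.Agent.H857.SG

theorem matched_map {P P' : ℂ → ℂ → Prop} {g : ℂ → ℂ} {S : ℂ → Prop}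
    (hP : ∀ a b, S a → S b → P a b → P' (g a) (g b)) {L : List ℂ} (h : Matched P L) :
    (∀ z ∈ L, S z) → Matched P' (L.map g) := by
  induction h with
  | nil =>
    intro _
    exact Matched.nil
  | @cons a b L L' hab _ hperm ih =>
    intro hS
    have hmem : ∀ z ∈ a :: b :: L, S z := fun z hz => hS z (hperm.mem_iff.2 hz)
    refine Matched.cons (hP a b (hmem a (by simp)) (hmem b (by simp)) hab)
      (ih fun z hz => hmem z (by simp [hz])) ?_
    exact hperm.map g

theorem exists_lift {S : ℂ → Prop} {g : ℂ → ℂ} (M : List ℂ)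
    (hM : ∀ w ∈ M, ∃ z, S z ∧ w = g z) : ∃ L : List ℂ, (∀ z ∈ L, S z) ∧ M = L.map g := by
  induction M with
  | nil => exact ⟨[], by simp, rfl⟩
  | cons w M ih =>
    obtain ⟨L, hL, hLM⟩ := ih fun v hv => hM v (by simp [hv])
    obtain ⟨z, hz, hzw⟩ := hM w (by simp)
    refine ⟨z :: L, ?_, ?_⟩
    · intro v hv
      rcases List.mem_cons.1 hv with rfl | hv
      · exact hz
      · exact hL v hv
    · rw [List.map_cons, ← hLM, hzw]

/-- The common argument: relations between the powers of the roots come from pairs. -/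
theorem matched_pow {q d m : ℕ} (hq : 1 < q) (hm : Kills d m) {f : ℤ[X]}
    (hf : f ∈ weilPolys q d) (hex : ¬ ExL q f) {k : ℕ} (hk : 0 < k) (M : List ℂ)
    (hM : ∀ w ∈ M, ∃ z, aeval z f = 0 ∧ w = z ^ (m * k)) (n : ℤ) {N : ℕ} (hN : 0 < N)
    (hprod : M.prod ^ N = (((q : ℂ) ^ (m * k)) ^ n) ^ N) :
    Matched (fun y z => y * z = (q : ℂ) ^ (m * k)) M := by
  obtain ⟨L, hL, rfl⟩ := exists_lift (g := fun z => z ^ (m * k)) M hM
  have hmk : 0 < m * k := Nat.mul_pos hm.1 hk
  have h1 : (L.map fun z => z ^ (m * k)).prod = L.prod ^ (m * k) := by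
    have h2 : ∀ K : List ℂ, (K.map fun z => z ^ (m * k)).prod = K.prod ^ (m * k) := by
      intro K
      induction K with
      | nil => simp
      | cons a K ih => rw [List.map_cons, List.prod_cons, List.prod_cons, ih, mul_pow]
    exact h2 L
  rw [h1] at hprod
  have h3 := Pool.Agent.H720.EFS.s11 q f hq hf.2.2.2 hex L hL ⟨m * k * N, Nat.mul_pos hmk hN, n, by
    rw [pow_mul, hprod, ← zpow_natCast, ← zpow_natCast, ← zpow_mul, ← zpow_mul]
    congr 1
    push_cast
    ring⟩
  refine matched_map (S := fun z => aeval z f = 0) ?_ h3 hL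
  intro a b ha hb hab
  have h4 := hm.2 q (by omega) f hf a b ha hb hab
  show a ^ (m * k) * b ^ (m * k) = (q : ℂ) ^ (m * k)
  rw [← mul_pow, pow_mul, h4, pow_mul]

/-- The roots of the power polynomial. -/
theorem root_powerPoly {f g : ℤ[X]} {m : ℕ} (hg : IsPowerPoly f m g) {z : ℂ}
    (hz : aeval z g = 0) : ∃ w, aeval w f = 0 ∧ z = w ^ m := by
  have h1 : z ∈ (g.map (Int.castRingHom ℂ)).roots := by
    rw [mem_roots (hg.1.map _).ne_zero, IsRoot.def, eval_map, ← hz]
    rfl
  rw [hg.2, Multiset.mem_map] at h1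
  obtain ⟨w, hw, rfl⟩ := h1
  refine ⟨w, ?_, rfl⟩
  have h2 := (mem_roots'.1 hw).2
  rw [IsRoot.def, eval_map] at h2
  exact h2

theorem b7c : B7c := by
  intro q d m hq hm f hf hL g hg
  refine ⟨fun _ => hg.1, rfl, ?_⟩
  rintro s hs ρ hρ n c s' hs' hn ys hys hprod hpair
  have hρ1 : ρ = 1 := hρ
  rw [hρ1, mul_one] at hprod
  have hM : Matched (fun y z => y * z = (q : ℂ) ^ (m * s))
      (ys.map fun z : {z : ℂ // ∃ _ : Unit, aeval z g = 0} => (z : ℂ) ^ s) := by
    refine matched_pow hq hm hf hL hs _ ?_ c hs' ?_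
    · intro w hw
      obtain ⟨⟨z, _, hz⟩, -, rfl⟩ := List.mem_map.1 hw
      obtain ⟨v, hv, rfl⟩ := root_powerPoly hg hz
      exact ⟨v, hv, (pow_mul v m s).symm⟩
    · rw [hprod]
      push_cast
      rw [pow_mul]
  have hpair' : (ys.map fun z : {z : ℂ // ∃ _ : Unit, aeval z g = 0} => (z : ℂ) ^ s).Pairwise
      (fun y z => y * z ≠ (q : ℂ) ^ (m * s)) := by
    rw [List.pairwise_map]
    refine hpair.imp ?_
    intro a b hab h
    apply hab
    rw [h, pow_mul]
    push_cast
    rfl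
  generalize hK : (ys.map fun z : {z : ℂ // ∃ _ : Unit, aeval z g = 0} => (z : ℂ) ^ s) = K at *
  cases hM with
  | nil =>
    have h1 : (ys.map fun z : {z : ℂ // ∃ _ : Unit, aeval z g = 0} => (z : ℂ) ^ s).length = 0 := by
      rw [hK]
      rfl
    rw [List.length_map] at h1
    omega
  | @cons a b L _ hab _ hperm =>
    have h1 := (hperm.pairwise_iff (R := fun y z : ℂ => y * z ≠ (q : ℂ) ^ (m * s))
      (fun {x y} h h' => h (by rw [mul_comm]; exact h'))).1 hpair'
    rw [List.pairwise_cons] at h1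
    exact h1.1 b (by simp) hab

end Pool.Agent.H333.SG
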