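import Pool.Agent.H857.SG.Core

/-!
# B1: roots and permutations of a Weil polynomial with symmetric group
-/

set_option autoImplicit false

namespace Pool.Agent.H337.SGb1

open Module Polynomial Pool.Agent.W521.Descent Pool.Agent.W521.Density Pool.Agent.W521.Count
  Pool.Agent.X297.UB Pool.Agent.H857.PB Pool.Agent.H857.PA Pool.Agent.H857.HK Pool.Agent.H857.EF
  Pool.Agent.H857.WT Pool.Agent.H857.SG

lemma closedQB : IsAlgClosed QB := by
  have h := algebraicClosure.isAlgClosure ℚ ℂ
  exact @IsAlgClosure.isAlgClosed ℚ (algebraicClosure ℚ ℂ) _ _ (algebraicClosure ℚ ℂ).algebra' _ h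

lemma normalQB : Normal ℚ QB := by
  have h := algebraicClosure.isAlgClosure ℚ ℂ
  exact @IsAlgClosure.normal ℚ (algebraicClosure ℚ ℂ) _ _ (algebraicClosure ℚ ℂ).algebra' h

/-- All permutations of the roots are induced by automorphisms when the Galois group is as large
as possible. -/
lemma sym_of_card {g : ℕ} (P : ℚ[X]) (hP : P.Separable) (hcard : Nat.card P.Gal = g.factorial)
    (θ : Fin g → QB) (hθ : P.map (algebraMap ℚ QB) = ∏ j, (X - C (θ j))) :
    Pool.Agent.H857.SG.Sym θ := by
  have hclosed : IsAlgClosed QB := closedQB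
  have hinj : Function.Injective θ := by
    have h1 : (P.map (algebraMap ℚ QB)).Separable := hP.map
    rw [hθ] at h1
    exact separable_prod_X_sub_C_iff.1 h1
  refine ⟨hinj, fun π => ?_⟩
  have hfact : Fact ((P.map (algebraMap ℚ QB)).Splits) := ⟨IsAlgClosed.splits _⟩
  have hP0 : P ≠ 0 := by
    rintro rfl
    exact not_separable_zero hP
  have hmem : ∀ i, θ i ∈ P.rootSet QB := by
    intro i
    rw [mem_rootSet, aeval_def, ← eval_map, hθ, eval_prod]
    exact ⟨hP0, Finset.prod_eq_zero (Finset.mem_univ i) (by simp)⟩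
  have hsurj : ∀ z : QB, z ∈ P.rootSet QB → ∃ i, θ i = z := by
    intro z hz
    rw [mem_rootSet, aeval_def, ← eval_map, hθ, eval_prod, Finset.prod_eq_zero_iff] at hz
    obtain ⟨-, i, -, hi⟩ := hz
    rw [eval_sub, eval_X, eval_C, sub_eq_zero] at hi
    exact ⟨i, hi.symm⟩
  let e : Fin g ≃ P.rootSet QB := Equiv.ofBijective (fun i => ⟨θ i, hmem i⟩)
    ⟨fun i j hij => hinj (congrArg Subtype.val hij), fun z => by
      obtain ⟨i, hi⟩ := hsurj z.1 z.2
      exact ⟨i, Subtype.ext hi⟩⟩
  have hbij : Function.Bijective (Gal.galActionHom P QB) := by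
    have h1 : Nat.card (Equiv.Perm (P.rootSet QB)) = g.factorial := by
      rw [Nat.card_congr (Equiv.permCongr e.symm), Nat.card_perm, Nat.card_eq_fintype_card,
        Fintype.card_fin]
    have hfin : Finite (Equiv.Perm (P.rootSet QB)) :=
      Nat.finite_of_card_ne_zero (by rw [h1]; exact (Nat.factorial_pos g).ne')
    exact (Nat.bijective_iff_injective_and_card _).2
      ⟨Gal.galActionHom_injective P QB, by rw [hcard, h1]⟩
  obtain ⟨φ, hφ⟩ := hbij.2 ((Equiv.permCongr e) π)
  have hnorm : Normal ℚ QB := normalQB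
  obtain ⟨σ, hσ⟩ := Gal.restrict_surjective P QB φ
  refine ⟨σ, fun i => ?_⟩
  have h2 := Gal.galActionHom_restrict P QB σ (e i)
  rw [hσ, hφ] at h2
  have h3 : (Equiv.permCongr e) π (e i) = e (π i) := by
    rw [Equiv.permCongr_apply, Equiv.symm_apply_apply]
  rw [h3] at h2
  exact h2.symm

theorem b1 : B1 := by
  rintro q g f hq hg hf ⟨h, hm, hdeg, rfl, hirr, hcard⟩
  have hq0 : q ≠ 0 := hq.ne'
  have hclosed : IsAlgClosed QB := closedQB
  obtain ⟨x, rfl⟩ : ∃ x : Fin g → ℤ, h = mkPoly g x := ⟨_, (eq_mkPoly hm hdeg).symm⟩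
  obtain ⟨a, b, hab, hx⟩ := exists_hp (K := QB) (q := q) x
  have hqQ : (q : QB) ≠ 0 := by exact_mod_cast hq0
  have ha0 : ∀ i, a i ≠ 0 := by
    intro i h0
    have h1 := hab i
    rw [h0, zero_mul] at h1
    exact hqQ h1.symm
  have hb : ∀ i, b i = (q : QB) / a i := by
    intro i
    rw [eq_div_iff (ha0 i), mul_comm]
    exact hab i
  have hmap := wp_map_eq hab hx
  have hmapC : (wp q g x).map (Int.castRingHom ℂ) =
      ∏ i, ((X - C (a i : ℂ)) * (X - C ((q : ℂ) / (a i : ℂ)))) := by
    have h1 := congrArg (Polynomial.map (algebraMap QB ℂ)) hmap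
    rw [Polynomial.map_map, RingHom.ext_int ((algebraMap QB ℂ).comp (algebraMap ℤ QB))
      (Int.castRingHom ℂ), Polynomial.map_prod] at h1
    rw [h1]
    refine Finset.prod_congr rfl fun i _ => ?_
    rw [Polynomial.map_mul, Polynomial.map_sub, Polynomial.map_sub, map_X, map_C, map_C, hb i,
      map_div₀, map_natCast]
    rfl
  refine ⟨a, ⟨fun i => ?_, hmapC⟩, ?_⟩
  · apply hf.2.2.2
    have h1 : (Pool.Agent.W521.Frob.weil q (mkPoly g x)) = wp q g x := rfl
    rw [h1, aeval_def, ← eval_map]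
    have h2 : (wp q g x).map (algebraMap ℤ ℂ) = (wp q g x).map (Int.castRingHom ℂ) := rfl
    rw [h2, hmapC, eval_prod]
    exact Finset.prod_eq_zero (Finset.mem_univ i) (by simp)
  · have h1 : (fun i => a i + (q : QB) / a i) = fun i => a i + b i := by
      funext i
      rw [hb i]
    rw [h1]
    have hirrQ : Irreducible ((mkPoly g x).map (Int.castRingHom ℚ)) :=
      (Polynomial.IsPrimitive.Int.irreducible_iff_irreducible_map_cast hm.isPrimitive).1 hirr
    refine sym_of_card ((mkPoly g x).map (Int.castRingHom ℚ)) hirrQ.separable hcard _ ?_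
    rw [Polynomial.map_map, RingHom.ext_int ((algebraMap ℚ QB).comp (Int.castRingHom ℚ))
      (algebraMap ℤ QB), ← hp_eq_map]
    exact hx

end Pool.Agent.H337.SGb1
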