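import Pool.Agent.H857.SG.Core

/-!
# Abelian varieties over finite fields with generic real Frobenius fields: the statement `B1r`
-/

set_option autoImplicit false

namespace Pool.Agent.H857.SG

open Module Polynomial Pool.Agent.W521.Descent Pool.Agent.W521.Density Pool.Agent.W521.Count
  Pool.Agent.X297.UB Pool.Agent.H857.PB Pool.Agent.H857.PA Pool.Agent.H857.HK Pool.Agent.H857.EF
  Pool.Agent.H857.WT

section General

variable {E : Type} [Field E] [Algebra ℚ E]

theorem b1r_rootSet {g : ℕ} (H : ℚ[X]) (hH0 : H ≠ 0) (θ : Fin g → E)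
    (hH : H.map (algebraMap ℚ E) = ∏ i, (X - C (θ i))) : H.rootSet E = Set.range θ := by
  ext x
  rw [mem_rootSet, aeval_def, ← eval_map, hH, eval_prod, Finset.prod_eq_zero_iff]
  constructor
  · rintro ⟨_, i, _, hi⟩
    refine ⟨i, ?_⟩
    rw [eval_sub, eval_X, eval_C] at hi
    exact (sub_eq_zero.1 hi).symm
  · rintro ⟨i, rfl⟩
    exact ⟨hH0, i, Finset.mem_univ _, by simp⟩

theorem b1r_card_gal {g : ℕ} (H : ℚ[X]) (hH0 : H ≠ 0) (θ : Fin g → E)
    (hinj : Function.Injective θ)
    (hH : H.map (algebraMap ℚ E) = ∏ i, (X - C (θ i)))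
    (hperm : ∀ π : Equiv.Perm (Fin g), ∃ σ : E ≃ₐ[ℚ] E, ∀ i, σ (θ i) = θ (π i)) :
    Nat.card H.Gal = g.factorial := by
  have hsp : (H.map (algebraMap ℚ E)).Splits := by
    rw [hH]
    exact Splits.prod fun i _ => Splits.X_sub_C _
  have : Fact ((H.map (algebraMap ℚ E)).Splits) := ⟨hsp⟩
  have hrs := b1r_rootSet H hH0 θ hH
  let e : Fin g ≃ H.rootSet E := Equiv.ofBijective
    (fun i => ⟨θ i, by rw [hrs]; exact ⟨i, rfl⟩⟩) (by
    constructor
    · intro i j hij
      exact hinj (by simpa using hij)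
    · rintro ⟨x, hx⟩
      rw [hrs] at hx
      obtain ⟨i, rfl⟩ := hx
      exact ⟨i, rfl⟩)
  have he : ∀ i, ((e i : H.rootSet E) : E) = θ i := fun i => rfl
  have hbij : Function.Bijective (Gal.galActionHom H E) := by
    refine ⟨Gal.galActionHom_injective H E, ?_⟩
    intro τ
    obtain ⟨σ, hσ⟩ := hperm ((e.trans τ).trans e.symm)
    refine ⟨Gal.restrict H E σ, ?_⟩
    ext x
    obtain ⟨i, rfl⟩ := e.surjective x
    rw [Gal.galActionHom_restrict, he, hσ i]
    rw [← he]
    simp
  rw [Nat.card_congr (Equiv.ofBijective _ hbij), Nat.card_perm, Nat.card_congr e.symm,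
    Nat.card_fin]

theorem b1r_irred {g : ℕ} (hg : 0 < g) (H : ℚ[X]) (hm : H.Monic) (θ : Fin g → E)
    (hinj : Function.Injective θ)
    (hH : H.map (algebraMap ℚ E) = ∏ i, (X - C (θ i)))
    (hperm : ∀ π : Equiv.Perm (Fin g), ∃ σ : E ≃ₐ[ℚ] E, ∀ i, σ (θ i) = θ (π i)) :
    Irreducible H := by
  have hrs := b1r_rootSet H hm.ne_zero θ hH
  set i0 : Fin g := ⟨0, hg⟩
  have hroot : ∀ i, aeval (θ i) H = 0 := by
    intro i
    have : θ i ∈ H.rootSet E := by rw [hrs]; exact ⟨i, rfl⟩
    exact (mem_rootSet.1 this).2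
  have hdeg : H.natDegree = g := by
    have h1 : (H.map (algebraMap ℚ E)).natDegree = g := by
      rw [hH, natDegree_prod_of_monic _ _ fun i _ => monic_X_sub_C _]
      simp
    rwa [natDegree_map] at h1
  have hint : IsIntegral ℚ (θ i0) := ⟨H, hm, by rw [← aeval_def]; exact hroot i0⟩
  have hdvd : minpoly ℚ (θ i0) ∣ H := minpoly.dvd _ _ (hroot i0)
  have hmr : ∀ i, aeval (θ i) (minpoly ℚ (θ i0)) = 0 := by
    intro i
    obtain ⟨σ, hσ⟩ := hperm (Equiv.swap i0 i)
    have h1 := hσ i0
    rw [Equiv.swap_apply_left] at h1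
    rw [← h1, aeval_algEquiv, AlgHom.comp_apply, minpoly.aeval]
    simp
  have hdeg2 : g ≤ (minpoly ℚ (θ i0)).natDegree := by
    have h1 : (∏ i, (X - C (θ i))) ∣ (minpoly ℚ (θ i0)).map (algebraMap ℚ E) := by
      refine Finset.prod_dvd_of_coprime (fun i _ j _ hij => ?_) fun i _ => ?_
      · exact isCoprime_X_sub_C_of_isUnit_sub
          (by rw [isUnit_iff_ne_zero, sub_ne_zero]; exact fun h => hij (hinj h))
      · rw [dvd_iff_isRoot, IsRoot.def, eval_map, ← aeval_def]
        exact hmr i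
    have h2 := natDegree_le_of_dvd h1 ((minpoly.monic hint).map _).ne_zero
    rw [natDegree_map, natDegree_prod_of_monic _ _ fun i _ => monic_X_sub_C _] at h2
    simpa using h2
  have heq : H = minpoly ℚ (θ i0) := by
    refine eq_of_monic_of_dvd_of_natDegree_le (minpoly.monic hint) hm hdvd ?_
    rw [hdeg]
    exact hdeg2
  rw [heq]
  exact minpoly.irreducible hint

end General

theorem b1r : B1r := by
  intro q g f α hq hg hf hR hS
  obtain ⟨x, hx, -⟩ := exists_point hq.ne' hf
  have hmon : (mkPoly g x).Monic := mkPoly_monic g x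
  have hdeg : (mkPoly g x).natDegree = g := mkPoly_natDegree g x
  set h : ℤ[X] := mkPoly g x with hh
  obtain ⟨hinj, hperm⟩ := hS
  set θ : Fin g → QB := fun i => α i + (q : QB) / α i with hθ
  have hα0 : ∀ i, α i ≠ 0 := by
    intro i h0
    have := hR.norm i
    rw [h0] at this
    simp at this
    exact hq.ne' (by exact_mod_cast this.symm)
  have hroot : ∀ i, aeval (θ i) h = 0 := by
    intro i
    have h1 : aeval (α i) f = 0 := by
      have h2 : aeval (α i : ℂ) f = 0 := by
        rw [aeval_def, ← eval_map]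
        have h3 : f.map (algebraMap ℤ ℂ) = f.map (Int.castRingHom ℂ) := rfl
        rw [h3, hR.map, eval_prod]
        refine Finset.prod_eq_zero (Finset.mem_univ i) ?_
        simp
      have h4 : (((aeval (α i) f : QB)) : ℂ) = aeval (α i : ℂ) f :=
        (aeval_algebraMap_apply ℂ (α i) f).symm
      have h5 : (((aeval (α i) f : QB)) : ℂ) = 0 := by rw [h4, h2]
      exact_mod_cast h5
    rw [hx, Pool.Agent.W521.Frob.aeval_weil q h (α i) (θ i) (by
      rw [hθ]
      have := hα0 i
      field_simp)] at h1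
    rcases mul_eq_zero.1 h1 with h2 | h2
    · exact absurd (eq_zero_of_pow_eq_zero h2) (hα0 i)
    · exact h2
  set H : ℚ[X] := h.map (Int.castRingHom ℚ) with hHdef
  have hHm : H.Monic := hmon.map _
  have hHd : H.natDegree = g := by rw [hHdef, hmon.natDegree_map, hdeg]
  have hHroot : ∀ i, aeval (θ i) H = 0 := by
    intro i
    rw [hHdef, aeval_def, eval₂_map]
    have := hroot i
    rw [aeval_def] at this
    rw [← this]
    congr 1
  have hmap : H.map (algebraMap ℚ QB) = ∏ i, (X - C (θ i)) := by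
    have h1 : (∏ i, (X - C (θ i))) ∣ H.map (algebraMap ℚ QB) := by
      refine Finset.prod_dvd_of_coprime (fun i _ j _ hij => ?_) fun i _ => ?_
      · exact isCoprime_X_sub_C_of_isUnit_sub
          (by rw [isUnit_iff_ne_zero, sub_ne_zero]; exact fun h => hij (hinj h))
      · rw [dvd_iff_isRoot, IsRoot.def, eval_map, ← aeval_def]
        exact hHroot i
    refine eq_of_monic_of_dvd_of_natDegree_le (monic_prod_of_monic _ _ fun i _ => monic_X_sub_C _)
      (hHm.map _) h1 ?_
    rw [natDegree_map, hHd, natDegree_prod_of_monic _ _ fun i _ => monic_X_sub_C _]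
    simp
  refine ⟨h, hmon, hdeg, hx, ?_, ?_⟩
  · have h1 := b1r_irred hg H hHm θ hinj hmap hperm
    rw [hHdef] at h1
    exact (IsPrimitive.Int.irreducible_iff_irreducible_map_cast hmon.isPrimitive).2 h1
  · exact b1r_card_gal H hHm.ne_zero θ hinj hmap hperm

end Pool.Agent.H857.SG
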