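import Pool.Agent.H857.SG.Core

/-!
# Project SG (helper857), part B3 (helper294): from the Galois action to Weil
-/

set_option autoImplicit false

namespace Pool.Agent.H294.SG

open Module Polynomial Pool.Agent.W521.Descent Pool.Agent.W521.Density Pool.Agent.W521.Count
  Pool.Agent.X297.UB Pool.Agent.H857.PB Pool.Agent.H857.PA Pool.Agent.H857.HK Pool.Agent.H857.EF
  Pool.Agent.H857.WT Pool.Agent.H857.SG

/-- `a` for `s = 1`, `q / a` for `s = -1` -/
noncomputable def ac (q : ℕ) (s : ℤ) (a : QB) : QB := if s = 1 then a else (q : QB) / a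

/-- `a² / q` -/
noncomputable def gm (q : ℕ) (a : QB) : QB := a ^ 2 / (q : QB)

/-- the exponent vectors of the products of finite order -/
def Rl {g : ℕ} (q : ℕ) (α : Fin g → QB) (x : Fin g → ℤ) : Prop :=
  ∃ N : ℕ, 0 < N ∧ (∏ i, gm q (α i) ^ x i) ^ N = 1

variable {g q : ℕ}

theorem qne (hq : 1 < q) : (q : QB) ≠ 0 := by
  have h : q ≠ 0 := by omega
  exact_mod_cast h

theorem ac_one (a : QB) : ac q 1 a = a := if_pos rfl

theorem ac_neg (a : QB) : ac q (-1) a = (q : QB) / a := if_neg (by decide)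

theorem ac_mul (hq : 1 < q) {s s' : ℤ} (hs : s = 1 ∨ s = -1) (hs' : s' = 1 ∨ s' = -1) (a : QB) :
    ac q s (ac q s' a) = ac q (s * s') a := by
  rcases hs with rfl | rfl <;> rcases hs' with rfl | rfl
  · rw [ac_one, ac_one, mul_one, ac_one]
  · rw [ac_one, one_mul]
  · rw [ac_one, mul_one]
  · rw [ac_neg, ac_neg, div_div_cancel₀ (qne hq)]
    have : (-1 : ℤ) * -1 = 1 := by norm_num
    rw [this, ac_one]

theorem ac_map (σ : QB ≃ₐ[ℚ] QB) (s : ℤ) (a : QB) : σ (ac q s a) = ac q s (σ a) := by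
  unfold ac
  split_ifs
  · rfl
  · rw [map_div₀, map_natCast]

theorem gm_ne (hq : 1 < q) {a : QB} (ha : a ≠ 0) : gm q a ≠ 0 :=
  div_ne_zero (pow_ne_zero _ ha) (qne hq)

theorem gm_ac (hq : 1 < q) {s : ℤ} (hs : s = 1 ∨ s = -1) {a : QB} (ha : a ≠ 0) :
    gm q (ac q s a) = gm q a ^ s := by
  have h0 := qne hq
  rcases hs with rfl | rfl
  · rw [ac_one, zpow_one]
  · rw [ac_neg, zpow_neg_one]
    unfold gm
    field_simp

theorem gm_map (σ : QB ≃ₐ[ℚ] QB) (a : QB) : σ (gm q a) = gm q (σ a) := by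
  unfold gm
  rw [map_div₀, map_pow, map_natCast]

/-- relations in terms of the elements `gm q (α i)` -/
theorem relZ_iff (hq : 1 < q) (α : Fin g → QB) (x : Fin g → ℤ) :
    RelZ q (fun i => (α i : ℂ)) x ↔ Rl q α x := by
  have hq0 : (q : ℂ) ≠ 0 := by
    have h : q ≠ 0 := by omega
    exact_mod_cast h
  have key : ∏ i, (α i : ℂ) ^ (2 * x i) =
      (algebraMap QB ℂ (∏ i, gm q (α i) ^ x i)) * (q : ℂ) ^ (∑ i, x i) := by
    rw [map_prod, zpow_sum₀ hq0, ← Finset.prod_mul_distrib]
    refine Finset.prod_congr rfl fun i _ => ?_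
    rw [map_zpow₀]
    unfold gm
    rw [map_div₀, map_pow, map_natCast, ← mul_zpow, div_mul_cancel₀ _ hq0, zpow_mul]
    rfl
  unfold RelZ Rl
  rw [key]
  have hN : ∀ N : ℕ, ((algebraMap QB ℂ (∏ i, gm q (α i) ^ x i)) * (q : ℂ) ^ (∑ i, x i)) ^ N =
      ((q : ℂ) ^ (∑ i, x i)) ^ N ↔ (∏ i, gm q (α i) ^ x i) ^ N = 1 := by
    intro N
    rw [mul_pow]
    have h1 : ((q : ℂ) ^ (∑ i, x i)) ^ N ≠ 0 := pow_ne_zero _ (zpow_ne_zero _ hq0)
    constructor
    · intro h
      have h2 := mul_right_cancel₀ h1 (h.trans (one_mul _).symm)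
      rw [← map_pow] at h2
      exact (algebraMap QB ℂ).injective (h2.trans (map_one _).symm)
    · intro h
      rw [← map_pow, h, map_one, one_mul]
  simp only [hN]

/-- the subgroup of the relations -/
def RG (_hq : 1 < q) (α : Fin g → QB) (hα : ∀ i, α i ≠ 0) : AddSubgroup (Fin g → ℤ) where
  carrier := {x | Rl q α x}
  zero_mem' := ⟨1, one_pos, by simp⟩
  add_mem' := by
    rintro x y ⟨N, hN, hx⟩ ⟨M, hM, hy⟩
    refine ⟨N * M, Nat.mul_pos hN hM, ?_⟩
    have h1 : ∏ i, gm q (α i) ^ (x + y) i = (∏ i, gm q (α i) ^ x i) * ∏ i, gm q (α i) ^ y i := by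
      rw [← Finset.prod_mul_distrib]
      refine Finset.prod_congr rfl fun i _ => ?_
      rw [Pi.add_apply, zpow_add₀ (gm_ne _hq (hα i))]
    rw [h1, mul_pow, pow_mul, hx, one_pow, mul_comm N M, pow_mul, hy, one_pow, one_mul]
  neg_mem' := by
    rintro x ⟨N, hN, hx⟩
    refine ⟨N, hN, ?_⟩
    have h1 : ∏ i, gm q (α i) ^ (-x) i = (∏ i, gm q (α i) ^ x i)⁻¹ := by
      rw [← Finset.prod_inv_distrib]
      refine Finset.prod_congr rfl fun i _ => ?_
      rw [Pi.neg_apply, zpow_neg]
    rw [h1, inv_pow, hx, inv_one]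

theorem mem_RG (hq : 1 < q) (α : Fin g → QB) (hα : ∀ i, α i ≠ 0) (x : Fin g → ℤ) :
    x ∈ RG hq α hα ↔ Rl q α x := Iff.rfl

/-- `a + q / a = b + q / b` -/
theorem eq_or {a b : QB} (ha : a ≠ 0) (hb : b ≠ 0)
    (h : a + (q : QB) / a = b + (q : QB) / b) : a = b ∨ a = (q : QB) / b := by
  have h0 : (a - b) * (a * b - q) = 0 := by
    have h1 : (a + (q : QB) / a) * (a * b) = a ^ 2 * b + q * b := by field_simp
    have h2 : (b + (q : QB) / b) * (a * b) = a * b ^ 2 + q * a := by field_simp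
    rw [h, h2] at h1
    linear_combination -h1
  rcases mul_eq_zero.1 h0 with h1 | h1
  · exact Or.inl (sub_eq_zero.1 h1)
  · exact Or.inr ((eq_div_iff hb).2 (sub_eq_zero.1 h1))

theorem th_ac (hq : 1 < q) {s : ℤ} (hs : s = 1 ∨ s = -1) (a : QB) :
    ac q s a + (q : QB) / ac q s a = a + (q : QB) / a := by
  rcases hs with rfl | rfl
  · rw [ac_one]
  · rw [ac_neg, div_div_cancel₀ (qne hq), add_comm]

/-- conjugates of the roots -/
theorem root_map {f : ℤ[X]} {α : Fin g → QB} (hR : Roots q g f α) (σ : QB ≃ₐ[ℚ] QB) (i : Fin g) :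
    ∃ j, σ (α i) = α j ∨ σ (α i) = (q : QB) / α j := by
  have hev : ∀ z : QB, algebraMap QB ℂ ((f.map (Int.castRingHom QB)).eval z) =
      (f.map (Int.castRingHom ℂ)).eval (z : ℂ) := by
    intro z
    rw [Polynomial.eval_map, Polynomial.eval_map, Polynomial.hom_eval₂]
    congr 1
  have h1 : (f.map (Int.castRingHom QB)).eval (α i) = 0 := by
    apply (algebraMap QB ℂ).injective
    rw [hev, hR.map, map_zero, Polynomial.eval_prod]
    apply Finset.prod_eq_zero (Finset.mem_univ i)
    simp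
  have h2 : (f.map (Int.castRingHom QB)).eval (σ (α i)) = 0 := by
    have h3 : σ ((f.map (Int.castRingHom QB)).eval (α i)) =
        (f.map (Int.castRingHom QB)).eval (σ (α i)) := by
      have h4 := Polynomial.hom_eval₂ f (Int.castRingHom QB) (σ : QB →+* QB) (α i)
      rw [Polynomial.eval_map, Polynomial.eval_map]
      refine h4.trans ?_
      congr 1
      exact RingHom.ext_int _ _
    rw [← h3, h1, map_zero]
  have h3 := congrArg (algebraMap QB ℂ) h2
  rw [hev, hR.map, map_zero, Polynomial.eval_prod] at h3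
  obtain ⟨j, -, hj⟩ := Finset.prod_eq_zero_iff.1 h3
  refine ⟨j, ?_⟩
  rw [eval_mul, eval_sub, eval_sub, eval_X, eval_C, eval_C, mul_eq_zero, sub_eq_zero,
    sub_eq_zero] at hj
  rcases hj with hj | hj
  · left
    exact (algebraMap QB ℂ).injective hj
  · right
    apply (algebraMap QB ℂ).injective
    rw [map_div₀, map_natCast]
    exact hj

/-- complex conjugation on the algebraic numbers -/
theorem exists_conj : ∃ σ : QB ≃ₐ[ℚ] QB, ∀ z : QB, (σ z : ℂ) = (starRingEnd ℂ) (z : ℂ) := by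
  have : IsAlgClosure ℚ QB := algebraicClosure.isAlgClosure ℚ ℂ
  have : Normal ℚ QB := IsAlgClosure.normal ℚ QB
  refine ⟨(Complex.conjAe.restrictScalars ℚ).restrictNormal QB, fun z => ?_⟩
  exact AlgEquiv.restrictNormal_commutes (Complex.conjAe.restrictScalars ℚ) QB z

theorem b3 (h2 : B2) : B3 := by
  classical
  intro q g f α e hq hg hR hS hE
  have hq0 := qne hq
  have hqC : (q : ℂ) ≠ 0 := by
    have h : q ≠ 0 := by omega
    exact_mod_cast h
  have hα : ∀ i, α i ≠ 0 := by
    intro i h0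
    have h1 := hR.norm i
    rw [h0] at h1
    have h3 : (q : ℝ) ≠ 0 := by
      have h : q ≠ 0 := by omega
      exact_mod_cast h
    apply h3
    rw [← h1]
    simp
  obtain ⟨hinj, hsym⟩ := hS
  -- the group
  set G : Set (Equiv.Perm (Fin g) × (Fin g → ℤ)) := {t | (∀ i, t.2 i = 1 ∨ t.2 i = -1) ∧
    ∃ σ : QB ≃ₐ[ℚ] QB, ∀ i, σ (α i) = ac q (t.2 i) (α (t.1 i))} with hG
  set R := RG hq α hα with hRdef
  have hrel : (fun x : Fin g → ℤ => RelZ q (fun i => (α i : ℂ)) x) = fun x => x ∈ R :=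
    funext fun x => propext (relZ_iff hq α x)
  rw [hrel] at hE
  have hsgn : ∀ s s' : ℤ, (s = 1 ∨ s = -1) → (s' = 1 ∨ s' = -1) → (s * s' = 1 ∨ s * s' = -1) := by
    rintro s s' (rfl | rfl) (rfl | rfl) <;> decide
  obtain ⟨c, hc1, hc2, hc3, hc4⟩ := h2 g hg G R e (fun t ht => ht.1)
    (by
      rintro t ⟨ht1, σ, hσ⟩ u ⟨hu1, τ, hτ⟩
      refine ⟨fun i => hsgn _ _ (ht1 i) (hu1 (t.1 i)), σ.trans τ, fun i => ?_⟩
      show τ (σ (α i)) = ac q (t.2 i * u.2 (t.1 i)) (α ((u.1 * t.1) i))
      rw [hσ, ac_map, hτ, ac_mul hq (ht1 i) (hu1 _)]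
      rfl)
    (by
      intro π
      obtain ⟨σ, hσ⟩ := hsym π
      refine ⟨fun i => if σ (α i) = α (π i) then 1 else -1, fun i => ?_, σ, fun i => ?_⟩
      · show (if σ (α i) = α (π i) then (1 : ℤ) else -1) = 1 ∨
          (if σ (α i) = α (π i) then (1 : ℤ) else -1) = -1
        by_cases h : σ (α i) = α (π i)
        · rw [if_pos h]
          exact Or.inl rfl
        · rw [if_neg h]
          exact Or.inr rfl
      · show σ (α i) = ac q (if σ (α i) = α (π i) then (1 : ℤ) else -1) (α (π i))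
        by_cases h : σ (α i) = α (π i)
        · rw [if_pos h, ac_one]
          exact h
        · rw [if_neg h, ac_neg]
          have h1 := hσ i
          simp only [map_add, map_div₀, map_natCast] at h1
          rcases eq_or (by simpa using hα i) (hα (π i)) h1 with h3 | h3
          · exact absurd h3 h
          · exact h3)
    (by
      obtain ⟨σ, hσ⟩ := exists_conj
      refine ⟨fun i => Or.inr rfl, σ, fun i => ?_⟩
      show σ (α i) = ac q (-1) (α i)
      rw [ac_neg, eq_div_iff (hα i)]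
      apply (algebraMap QB ℂ).injective
      rw [map_mul, map_natCast]
      have h1 : algebraMap QB ℂ (σ (α i)) = (starRingEnd ℂ) (α i : ℂ) := hσ (α i)
      have h3 : algebraMap QB ℂ (α i) = (α i : ℂ) := rfl
      rw [h1, h3, mul_comm, Complex.mul_conj, Complex.normSq_eq_norm_sq, hR.norm i]
      push_cast
      rfl)
    (by
      rintro t ⟨ht1, σ, hσ⟩ x ⟨N, hN, hx⟩
      refine ⟨N, hN, ?_⟩
      apply σ.injective
      have h1 : σ (∏ i, gm q (α i) ^ (t.2 i * x (t.1 i))) = ∏ i, gm q (α i) ^ x i := by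
        rw [map_prod, ← Equiv.prod_comp t.1 (fun i => gm q (α i) ^ x i)]
        refine Finset.prod_congr rfl fun i _ => ?_
        rw [map_zpow₀, gm_map, hσ, gm_ac hq (ht1 i) (hα _), ← zpow_mul, ← mul_assoc]
        rcases ht1 i with h | h <;> rw [h] <;> norm_num
      rw [map_pow, h1, hx, map_one])
    (by
      rintro n x hn ⟨N, hN, hx⟩
      have h1 : ∏ i, gm q (α i) ^ (n • x) i = (∏ i, gm q (α i) ^ x i) ^ n := by
        rw [← Finset.prod_zpow]
        refine Finset.prod_congr rfl fun i _ => ?_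
        rw [← zpow_mul, Pi.smul_apply, smul_eq_mul, mul_comm]
      rw [h1] at hx
      have h3 : (∏ i, gm q (α i) ^ x i) ^ (n * (N : ℤ)) = 1 := by
        rw [zpow_mul, zpow_natCast]
        exact hx
      refine ⟨(n * (N : ℤ)).natAbs, Int.natAbs_pos.2 (mul_ne_zero hn (by exact_mod_cast hN.ne')),
        ?_⟩
      rcases Int.natAbs_eq (n * (N : ℤ)) with h | h
      · rw [h, zpow_natCast] at h3
        exact h3
      · rw [h, zpow_neg, inv_eq_one, zpow_natCast] at h3
        exact h3) hE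
  -- the roots `β`
  set β : Fin g → QB := fun i => ac q (c i) (α i) with hβ
  have hβ0 : ∀ i, β i ≠ 0 := by
    intro i
    simp only [hβ]
    unfold ac
    split_ifs
    · exact hα i
    · exact div_ne_zero hq0 (hα i)
  have hgmβ : ∀ i, gm q (β i) = gm q (α i) ^ c i := fun i => gm_ac hq (hc1 i) (hα i)
  have hrelβ : ∀ x : Fin g → ℤ, RelZ q (fun i => (β i : ℂ)) x ↔ (fun i => c i * x i) ∈ R := by
    intro x
    rw [relZ_iff hq β x, hRdef, mem_RG]
    unfold Rl
    have h1 : ∏ i, gm q (β i) ^ x i = ∏ i, gm q (α i) ^ (c i * x i) :=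
      Finset.prod_congr rfl fun i _ => by rw [hgmβ, ← zpow_mul]
    rw [h1]
  have hc0 : ∀ i, c i * c i = 1 := by
    intro i
    rcases hc1 i with h | h <;> rw [h] <;> norm_num
  refine ⟨β, fun i => ?_, ?_, ?_, ?_, ?_⟩
  · simp only [hβ]
    rcases hc1 i with h | h
    · rw [h, ac_one]
      exact Or.inl rfl
    · rw [h, ac_neg]
      exact Or.inr rfl
  · intro i
    simp only [hβ]
    rcases hc1 i with h | h
    · rw [h, ac_one]
      exact hR.norm i
    · rw [h, ac_neg]
      have h1 : (((q : QB) / α i : QB) : ℂ) = (q : ℂ) / (α i : ℂ) := by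
        have h3 : (((q : QB) / α i : QB) : ℂ) = algebraMap QB ℂ ((q : QB) / α i) := rfl
        rw [h3, map_div₀, map_natCast]
        rfl
      rw [h1, norm_div, div_pow, hR.norm i, Complex.norm_natCast, pow_two]
      have h3 : (q : ℝ) ≠ 0 := by
        have h : q ≠ 0 := by omega
        exact_mod_cast h
      field_simp
  · intro σ
    -- the permutation
    have hex : ∀ i, ∃ j, ∃ s : ℤ, (s = 1 ∨ s = -1) ∧ σ (α i) = ac q s (α j) := by
      intro i
      obtain ⟨j, h | h⟩ := root_map hR σ i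
      · exact ⟨j, 1, Or.inl rfl, by rw [ac_one]; exact h⟩
      · exact ⟨j, -1, Or.inr rfl, by rw [ac_neg]; exact h⟩
    choose p s hs hp using hex
    have hth : ∀ i, σ (α i + (q : QB) / α i) = α (p i) + (q : QB) / α (p i) := by
      intro i
      rw [map_add, map_div₀, map_natCast, hp i, th_ac hq (hs i)]
    have hpinj : Function.Injective p := by
      intro i j hij
      apply hinj
      apply σ.injective
      show σ (α i + (q : QB) / α i) = σ (α j + (q : QB) / α j)
      rw [hth, hth, hij]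
    set π : Equiv.Perm (Fin g) := Equiv.ofBijective p (Finite.injective_iff_bijective.1 hpinj) with hπ
    have hπp : ∀ i, π i = p i := fun i => rfl
    have hmem : (π, s) ∈ G := ⟨hs, σ, fun i => hp i⟩
    have hσβ : ∀ i, σ (β i) = ac q (c i * s i) (α (π i)) := by
      intro i
      simp only [hβ]
      rw [ac_map, hp i, ac_mul hq (hc1 i) (hs i)]
      rfl
    have hss : ∀ i, s i * s i = 1 := by
      intro i
      rcases hs i with h | h <;> rw [h] <;> norm_num
    rcases hc2 (π, s) hmem with h | h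
    · left
      refine ⟨π, fun i => ?_⟩
      have h1 : s i * c (π i) = c i := h i
      have h3 : c i * s i = c (π i) := by
        rw [← h1]
        linear_combination (c (π i)) * hss i
      rw [hσβ, h3]
    · right
      refine ⟨π, fun i => ?_⟩
      have h1 : s i * c (π i) = -c i := h i
      have h3 : c i * s i = -1 * c (π i) := by
        linear_combination (s i) * h1 - (c (π i)) * hss i
      rw [hσβ, h3, ← ac_mul hq (Or.inr rfl) (hc1 _), ac_neg]
  · rw [hrelβ]
    have h1 : (fun i => c i * (1 : ℤ)) = c := by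
      funext i
      rw [mul_one]
    rw [h1]
    exact hc3
  · intro x hx
    rw [hrelβ] at hx
    obtain ⟨n, hn⟩ := hc4 _ hx
    refine ⟨n, fun i => ?_⟩
    have h1 := congrFun hn i
    simp only [Pi.smul_apply, smul_eq_mul] at h1
    have h3 : c i * (c i * x i) = c i * (n * c i) := by rw [h1]
    linear_combination h3 - (x i - n) * hc0 i

end Pool.Agent.H294.SG
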