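import Pool.Agent.H857.SG.Core

/-!
# The Weil polynomials without symmetric groups are few
-/

set_option autoImplicit false

namespace Pool.Agent.H857.SG

open Module Polynomial Pool.Agent.W521.Descent Pool.Agent.W521.Density Pool.Agent.W521.Count
  Pool.Agent.X297.UB Pool.Agent.H857.PB Pool.Agent.H857.PA Pool.Agent.H857.HK Pool.Agent.H857.EF
  Pool.Agent.H857.WT

namespace B8

/-- The lower corner of the box. -/
noncomputable def lo (q g : ℕ) (k : Fin g) : ℤ := -(bd q g k : ℤ)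

/-- The side lengths of the box. -/
noncomputable def len (q g : ℕ) (k : Fin g) : ℕ := 2 * bd q g k + 1

theorem sqrt_le_len {q : ℕ} (hq : 0 < q) (g : ℕ) (k : Fin g) :
    Real.sqrt q ≤ (len q g k : ℝ) := by
  refine le_trans ?_ (le_bd q g k)
  have h1 : (1 : ℝ) ≤ Real.sqrt q := by
    rw [Real.one_le_sqrt]
    exact_mod_cast hq
  have h2 : Real.sqrt q ≤ Real.sqrt q ^ (g - (k : ℕ)) := by
    refine le_self_pow₀ h1 ?_
    have := k.2
    omega
  have h3 : (1 : ℝ) ≤ 4 ^ g := one_le_pow₀ (by norm_num)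
  have h4 : 0 < Real.sqrt q ^ (g - (k : ℕ)) := by positivity
  nlinarith

theorem len_le {q : ℕ} (hq : 0 < q) (g : ℕ) (k : Fin g) :
    (len q g k : ℝ) ≤ 3 * 4 ^ g * Real.sqrt q ^ (g - (k : ℕ)) := by
  have h1 := bd_le q g k
  have h2 : (1 : ℝ) ≤ Real.sqrt q := by
    rw [Real.one_le_sqrt]
    exact_mod_cast hq
  have h3 : (1 : ℝ) ≤ 4 ^ g * Real.sqrt q ^ (g - (k : ℕ)) :=
    one_le_mul_of_one_le_of_one_le (one_le_pow₀ (by norm_num)) (one_le_pow₀ h2)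
  unfold len
  push_cast
  linarith

theorem prod_len_le {q : ℕ} (hq : 0 < q) (g : ℕ) :
    ∏ k, (len q g k : ℝ) ≤ (3 * 4 ^ g) ^ g * Real.sqrt q ^ tot g := by
  calc ∏ k, (len q g k : ℝ) ≤ ∏ k : Fin g, ((3 * 4 ^ g) * Real.sqrt q ^ (g - (k : ℕ))) :=
        Finset.prod_le_prod (fun k _ => Nat.cast_nonneg _) fun k _ => len_le hq g k
    _ = _ := by
        rw [Finset.prod_mul_distrib, Finset.prod_const, Finset.card_univ, Fintype.card_fin,
          Finset.prod_pow_eq_pow_sum, sum_tot]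

/-- The exceptional points of the box. -/
def exc (g : ℕ) (Ev : ∀ l : ℕ, (Fin g → ZMod l) → Prop) (q : ℕ) : Set (Fin g → ℤ) :=
  {x | x ∈ Pool.Agent.W521.Turan.box (lo q g) (len q g) ∧
    ∀ l : ℕ, l.Prime → ¬ Ev l (Pool.Agent.W521.Turan.red l x)}

theorem exc_finite (g : ℕ) (Ev : ∀ l : ℕ, (Fin g → ZMod l) → Prop) (q : ℕ) :
    (exc g Ev q).Finite :=
  (Finset.finite_toSet (Pool.Agent.W521.Turan.box (lo q g) (len q g))).subset fun _ hx => hx.1

theorem exc_bound (g : ℕ) (Ev : ∀ l : ℕ, (Fin g → ZMod l) → Prop) (c : ℝ) (hc : 0 < c)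
    (h : ∀ (l : ℕ) [Fact l.Prime], 3 ≤ l → c * (l : ℝ) ^ g ≤ ({x | Ev l x}.ncard : ℝ)) :
    ∃ C : ℝ, 0 < C ∧ ∀ q : ℕ, IsPrimePow q → ((exc g Ev q).ncard : ℝ) ≤
      C * (Real.log q * (q : ℝ) ^ (-(1 / 6) : ℝ)) * Real.sqrt q ^ tot g := by
  classical
  obtain ⟨C, hC, hs⟩ := Pool.Agent.W521.Sieve.sieve_bound g c hc 3
  refine ⟨C * (3 * 4 ^ g) ^ g, by positivity, fun q hq => ?_⟩
  let Ω : ∀ l : ℕ, Finset (Fin g → ZMod l) := fun l =>
    if hl : l.Prime then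
      (haveI := Fact.mk hl; Finset.univ.filter fun x => Ev l x) else ∅
  have hΩ : ∀ l : ℕ, (hl : l.Prime) → ∀ x, x ∈ Ω l ↔ Ev l x := by
    intro l hl x
    have := Fact.mk hl
    simp only [Ω, dif_pos hl, Finset.mem_filter, Finset.mem_univ, true_and]
  have h1 := hs q hq (ι := Fin g) (Fintype.card_fin g) Ω (by
    intro l hl hl3 _
    have := Fact.mk hl
    refine (h l hl3).trans (le_of_eq ?_)
    congr 1
    rw [← Set.ncard_coe_finset]
    congr 1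
    ext x
    rw [Finset.mem_coe, hΩ l hl]
    rfl) (lo q g) (len q g) (sqrt_le_len hq.pos g)
  have h2 : ((exc g Ev q).ncard : ℝ) ≤
      (((Pool.Agent.W521.Turan.box (lo q g) (len q g)).filter (fun x => ∀ l : ℕ, l.Prime → 3 ≤ l →
        ¬ l ∣ q → Pool.Agent.W521.Turan.red l x ∉ Ω l)).card : ℝ) := by
    rw [← Set.ncard_coe_finset]
    have h3 : exc g Ev q ⊆ (((Pool.Agent.W521.Turan.box (lo q g) (len q g)).filter
        (fun x => ∀ l : ℕ, l.Prime → 3 ≤ l → ¬ l ∣ q →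
          Pool.Agent.W521.Turan.red l x ∉ Ω l) : Finset (Fin g → ℤ)) : Set (Fin g → ℤ)) := by
      intro x hx
      rw [Finset.mem_coe, Finset.mem_filter]
      refine ⟨hx.1, fun l hl _ _ hm => ?_⟩
      exact hx.2 l hl ((hΩ l hl _).1 hm)
    exact_mod_cast Set.ncard_le_ncard h3 (Finset.finite_toSet _)
  have h4 : 0 ≤ Real.log q * (q : ℝ) ^ (-(1 / 6) : ℝ) :=
    mul_nonneg (Real.log_natCast_nonneg q) (Real.rpow_nonneg (Nat.cast_nonneg q) _)
  calc ((exc g Ev q).ncard : ℝ) ≤ C * (Real.log q * (q : ℝ) ^ (-(1 / 6) : ℝ)) *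
        ∏ k, (len q g k : ℝ) := h2.trans h1
    _ ≤ C * (Real.log q * (q : ℝ) ^ (-(1 / 6) : ℝ)) * ((3 * 4 ^ g) ^ g * Real.sqrt q ^ tot g) :=
        mul_le_mul_of_nonneg_left (prod_len_le hq.pos g) (mul_nonneg hC.le h4)
    _ = _ := by ring

/-- The polynomial modulo `l`. -/
theorem map_red (g l : ℕ) (x : Fin g → ℤ) :
    (mkPoly g x).map (Int.castRingHom (ZMod l)) =
      mkPoly g (Pool.Agent.W521.Turan.red l x) := by
  rw [map_mkPoly]
  rfl

end B8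

theorem b8 (ha : B8a) (hb : B8b) : B8 := by
  intro g hg
  obtain ⟨c, hc, hev⟩ := hb g hg
  obtain ⟨C₁, hC₁, h₁⟩ := B8.exc_bound g (EvA g) c hc fun l _ hl => (hev l hl).1
  obtain ⟨C₂, hC₂, h₂⟩ := B8.exc_bound g (EvB g) c hc fun l _ hl => (hev l hl).2.1
  obtain ⟨C₃, hC₃, h₃⟩ := B8.exc_bound g (EvC g) c hc fun l _ hl => (hev l hl).2.2
  refine ⟨C₁ + C₂ + C₃, by positivity, ?_⟩
  intro p hp a hapos
  have hq : IsPrimePow (p ^ a) := hp.out.isPrimePow.pow hapos.ne'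
  have hcast : ((p ^ a : ℕ) : ℝ) = (p : ℝ) ^ a := by push_cast; rfl
  have hsub : {f ∈ newtonWeil p a g | ¬ HasSymmetricGroup (p ^ a) g f} ⊆
      (fun x => Pool.Agent.W521.Frob.weil (p ^ a) (mkPoly g x)) ''
        (B8.exc g (EvA g) (p ^ a) ∪ B8.exc g (EvB g) (p ^ a) ∪ B8.exc g (EvC g) (p ^ a)) := by
    rintro f ⟨hf, hns⟩
    obtain ⟨x, hfx, hx⟩ := exists_point hq.pos.ne' hf.1
    have hbox : x ∈ Pool.Agent.W521.Turan.box (B8.lo (p ^ a) g) (B8.len (p ^ a) g) := by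
      unfold Pool.Agent.W521.Turan.box
      rw [Fintype.mem_piFinset]
      intro s
      rw [Finset.mem_Ico]
      have h1 := abs_le.1 (hx s)
      unfold B8.lo B8.len
      push_cast
      omega
    refine ⟨x, ?_, hfx.symm⟩
    by_contra hcon
    apply hns
    simp only [Set.mem_union, not_or] at hcon
    obtain ⟨⟨hA, hB⟩, hC⟩ := hcon
    have key : ∀ Ev : ∀ l : ℕ, (Fin g → ZMod l) → Prop, x ∉ B8.exc g Ev (p ^ a) →
        ∃ (l : ℕ) (_ : l.Prime), Ev l (Pool.Agent.W521.Turan.red l x) := by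
      intro Ev hE
      by_contra hno
      push Not at hno
      exact hE ⟨hbox, fun l hl => hno l hl⟩
    obtain ⟨l₁, hl₁, e₁⟩ := key _ hA
    obtain ⟨l₂, hl₂, c₂, r₂, e₂⟩ := key _ hB
    obtain ⟨l₃, hl₃, s₃, r₃, e₃⟩ := key _ hC
    have h := ha g (mkPoly g x) hg (mkPoly_monic g x) (mkPoly_natDegree g x)
      ⟨l₁, ⟨hl₁⟩, by rw [B8.map_red]; exact e₁⟩
      ⟨l₂, ⟨hl₂⟩, c₂, r₂, by rw [B8.map_red]; exact e₂⟩
      ⟨l₃, ⟨hl₃⟩, s₃, r₃, by rw [B8.map_red]; exact e₃⟩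
    exact ⟨mkPoly g x, mkPoly_monic g x, mkPoly_natDegree g x, hfx, h.1, h.2⟩
  have hfin : (B8.exc g (EvA g) (p ^ a) ∪ B8.exc g (EvB g) (p ^ a) ∪
      B8.exc g (EvC g) (p ^ a)).Finite :=
    ((B8.exc_finite g _ _).union (B8.exc_finite g _ _)).union (B8.exc_finite g _ _)
  have hn1 := (Set.ncard_le_ncard hsub (hfin.image _)).trans (Set.ncard_image_le hfin)
  have hn2 := hn1.trans ((Set.ncard_union_le _ _).trans
    (Nat.add_le_add_right (Set.ncard_union_le _ _) _))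
  have hn3 : ({f ∈ newtonWeil p a g | ¬ HasSymmetricGroup (p ^ a) g f}.ncard : ℝ) ≤
      ((B8.exc g (EvA g) (p ^ a)).ncard : ℝ) + ((B8.exc g (EvB g) (p ^ a)).ncard : ℝ) +
        ((B8.exc g (EvC g) (p ^ a)).ncard : ℝ) := by
    exact_mod_cast hn2
  have b₁ := h₁ _ hq
  have b₂ := h₂ _ hq
  have b₃ := h₃ _ hq
  rw [hcast] at b₁ b₂ b₃
  refine hn3.trans ?_
  calc _ ≤ _ := add_le_add (add_le_add b₁ b₂) b₃
    _ = _ := by ring

end Pool.Agent.H857.SG
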