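import Pool.Agent.H857.SG.Core

/-!
Project GenericRealField (helper857), statement B8a: a criterion for the symmetric group
(helper53; `mem_prime` and `fin_A` are copied from helper870's WT W5).
-/

set_option autoImplicit false

namespace Pool.Agent.H53.SGB8a

open Polynomial NumberField
open Pool.Agent.H857.SG (B8a)

theorem mem_prime {l : ℕ} [Fact l.Prime] {K : Type*} [Field K] [CharP K l] (ψ : ZMod l →+* K)
    {x : K} (hx : x ^ l = x) : ∃ t : ZMod l, ψ t = x := by
  have h1 : x ∈ (⊥ : Subfield K) := (Subfield.mem_bot_iff_pow_eq_self K l).2 hx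
  rw [← ZMod.fieldRange_castHom_eq_bot l, RingHom.mem_fieldRange] at h1
  obtain ⟨t, ht⟩ := h1
  refine ⟨t, ?_⟩
  rw [← ht]
  exact congrArg (fun f : ZMod l →+* K => f t) (RingHom.ext_zmod _ _)

/-- pattern A -/
theorem fin_A {l : ℕ} [Fact l.Prime] {K : Type*} [Field K] [CharP K l] (ψ : ZMod l →+* K)
    {n : ℕ} (hn : 3 ≤ n) (a : Fin n → K) (π : Equiv.Perm (Fin n)) (ha : ∀ i, a (π i) = a i ^ l)
    (c : ZMod l) (r : (ZMod l)[X]) (hr : Irreducible r)
    (hrn : r.natDegree + 1 = n) (hP : ∏ i, (X - C (a i)) = ((X - C c) * r).map ψ) :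
    ∃ i₀, π i₀ = i₀ ∧ ∀ i j, i ≠ i₀ → j ≠ i₀ → ∃ m : ℕ, (π ^ m) i = j := by
  classical
  -- the roots are distinct
  have hrc : r.eval c ≠ 0 := by
    intro h0
    have h1 := degree_eq_one_of_irreducible_of_root hr h0
    have h2 : r.natDegree = 1 := natDegree_eq_of_degree_eq_some h1
    omega
  have hsep : ((X - C c) * r).Separable := by
    refine Separable.mul (separable_X_sub_C) (PerfectField.separable_of_irreducible hr) ?_
    rw [(irreducible_X_sub_C c).coprime_iff_not_dvd, dvd_iff_isRoot]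
    exact hrc
  have hinj : Function.Injective a := by
    rw [← separable_prod_X_sub_C_iff, hP]
    exact hsep.map
  -- the fixed point
  have h1 : ∃ i₀, a i₀ = ψ c := by
    have h2 : (∏ i, (X - C (a i))).eval (ψ c) = 0 := by
      rw [hP, eval_map, eval₂_hom, eval_mul]
      simp
    rw [eval_prod, Finset.prod_eq_zero_iff] at h2
    obtain ⟨i, -, hi⟩ := h2
    refine ⟨i, ?_⟩
    rw [eval_sub, eval_X, eval_C, sub_eq_zero] at hi
    exact hi.symm
  obtain ⟨i₀, hi₀⟩ := h1
  have hfix : π i₀ = i₀ := by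
    apply hinj
    rw [ha, hi₀, ← map_pow, ZMod.pow_card]
  refine ⟨i₀, hfix, fun i j hi hj => ?_⟩
  have hfixm : ∀ m : ℕ, (π ^ m) i₀ = i₀ := by
    intro m
    induction m with
    | zero => rfl
    | succ m ih => rw [pow_succ, Equiv.Perm.mul_apply, hfix, ih]
  -- the orbit
  set O : Finset (Fin n) := Finset.univ.filter fun j => ∃ m : ℕ, (π ^ m) i = j with hO
  have hmem : ∀ j, j ∈ O ↔ ∃ m : ℕ, (π ^ m) i = j := fun j => by simp [hO]
  have hπO : ∀ j ∈ O, π j ∈ O := by
    intro j hj
    obtain ⟨m, hm⟩ := (hmem j).1 hj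
    refine (hmem _).2 ⟨m + 1, ?_⟩
    rw [pow_succ', Equiv.Perm.mul_apply, hm]
  have hi₀O : i₀ ∉ O := by
    intro h
    obtain ⟨m, hm⟩ := (hmem _).1 h
    apply hi
    apply (π ^ m).injective
    rw [hm, hfixm]
  have himg : O.image π = O := by
    apply Finset.eq_of_subset_of_card_le
    · intro j hj
      obtain ⟨j', hj', rfl⟩ := Finset.mem_image.1 hj
      exact hπO j' hj'
    · rw [Finset.card_image_of_injective _ π.injective]
  -- the polynomial of the orbit
  set g : K[X] := ∏ j ∈ O, (X - C (a j)) with hg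
  have hgl : ∀ m, g.coeff m ^ l = g.coeff m := by
    intro m
    have h3 : g.map (frobenius K l) = g := by
      rw [hg, Polynomial.map_prod]
      have h4 : ∀ j ∈ O, (X - C (a j)).map (frobenius K l) = X - C (a (π j)) := by
        intro j _
        rw [Polynomial.map_sub, map_X, map_C, frobenius_def, ha]
      rw [Finset.prod_congr rfl h4]
      conv_rhs => rw [← himg]
      rw [Finset.prod_image fun x _ y _ h => π.injective h]
    have h5 := congrArg (fun f => coeff f m) h3
    simp only [coeff_map, frobenius_def] at h5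
    exact h5
  have hlift : g ∈ lifts ψ := by
    rw [lifts_iff_coeff_lifts]
    intro m
    obtain ⟨t, ht⟩ := mem_prime ψ (hgl m)
    exact ⟨t, ht⟩
  obtain ⟨G, hG⟩ := (mem_lifts g).1 hlift
  have hgm : g.Monic := monic_prod_of_monic _ _ fun j _ => monic_X_sub_C _
  have hgd : g.natDegree = O.card := by
    rw [hg, natDegree_prod_of_monic _ _ fun j _ => monic_X_sub_C _]
    simp
  have hG0 : G ≠ 0 := by
    rintro rfl
    rw [Polynomial.map_zero] at hG
    exact hgm.ne_zero hG.symm
  have hiO : i ∈ O := (hmem i).2 ⟨0, rfl⟩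
  -- divisibility
  have hdvd : r ∣ G := by
    by_contra hnd
    have hco : IsCoprime r G := (hr.coprime_iff_not_dvd).2 hnd
    obtain ⟨u, v, huv⟩ := hco
    have hra : (r.map ψ).eval (a i) = 0 := by
      have h6 : (∏ i, (X - C (a i))).eval (a i) = 0 := by
        rw [eval_prod]
        refine Finset.prod_eq_zero (Finset.mem_univ i) ?_
        simp
      rw [hP, Polynomial.map_mul, eval_mul] at h6
      rcases mul_eq_zero.1 h6 with h7 | h7
      · exfalso
        apply hi
        apply hinj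
        rw [hi₀]
        rw [Polynomial.map_sub, map_X, map_C, eval_sub, eval_X, eval_C, sub_eq_zero] at h7
        exact h7
      · exact h7
    have hGa : (G.map ψ).eval (a i) = 0 := by
      rw [hG, hg, eval_prod]
      refine Finset.prod_eq_zero hiO ?_
      simp
    have h8 := congrArg (fun f => (f.map ψ).eval (a i)) huv
    simp only [Polynomial.map_add, Polynomial.map_mul, eval_add, eval_mul, hra, hGa, mul_zero,
      add_zero, Polynomial.map_one, eval_one] at h8
    exact zero_ne_one h8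
  have hcard : r.natDegree ≤ O.card := by
    have h9 := natDegree_le_of_dvd hdvd hG0
    rw [← hgd, ← hG, natDegree_map]
    exact h9
  have hOe : O = Finset.univ.erase i₀ := by
    apply Finset.eq_of_subset_of_card_le
    · intro j hj
      exact Finset.mem_erase.2 ⟨fun h => hi₀O (h ▸ hj), Finset.mem_univ _⟩
    · rw [Finset.card_erase_of_mem (Finset.mem_univ _), Finset.card_univ, Fintype.card_fin]
      omega
  have hjO : j ∈ O := by
    rw [hOe]
    exact Finset.mem_erase.2 ⟨hj, Finset.mem_univ _⟩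
  exact (hmem j).1 hjO



/-- the order of the Frobenius on the root of an irreducible polynomial -/
theorem pow_root {l : ℕ} [Fact l.Prime] {K : Type*} [Field K] [CharP K l] (ψ : ZMod l →+* K)
    {t : (ZMod l)[X]} (ht : Irreducible t) {x : K} (hx : (t.map ψ).eval x = 0) :
    x ^ l ^ t.natDegree = x := by
  have : Fact (Irreducible t) := ⟨ht⟩
  have hfin : Module.Finite (ZMod l) (AdjoinRoot t) :=
    (AdjoinRoot.powerBasis ht.ne_zero).finite
  have hF : Finite (AdjoinRoot t) := Module.finite_of_finite (ZMod l)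
  have hfr : Module.finrank (ZMod l) (AdjoinRoot t) = t.natDegree := by
    rw [(AdjoinRoot.powerBasis ht.ne_zero).finrank, AdjoinRoot.powerBasis_dim]
  have hcard : Nat.card (AdjoinRoot t) = l ^ t.natDegree := by
    rw [Module.natCard_eq_pow_finrank (K := ZMod l), Nat.card_zmod, hfr]
  have : Fintype (AdjoinRoot t) := Fintype.ofFinite _
  have h1 : (AdjoinRoot.root t) ^ l ^ t.natDegree = AdjoinRoot.root t := by
    have h2 := FiniteField.pow_card (AdjoinRoot.root t)
    rw [← Nat.card_eq_fintype_card, hcard] at h2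
    exact h2
  have hx' : t.eval₂ ψ x = 0 := by rwa [← eval_map]
  have h3 := congrArg (AdjoinRoot.lift ψ x hx') h1
  rw [map_pow, AdjoinRoot.lift_root hx'] at h3
  exact h3

/-- pattern C -/
theorem fin_C {l : ℕ} [Fact l.Prime] {K : Type*} [Field K] [CharP K l] (ψ : ZMod l →+* K)
    {n : ℕ} (a : Fin n → K) (π : Equiv.Perm (Fin n)) (ha : ∀ i, a (π i) = a i ^ l)
    (s r : (ZMod l)[X]) (hs : Irreducible s) (hs2 : s.natDegree = 2) (hrm : r.Monic)
    (hr : Squarefree r) (hodd : ∀ t : (ZMod l)[X], Irreducible t → t ∣ r → Odd t.natDegree)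
    (hP : ∏ i, (X - C (a i)) = (s * r).map ψ) :
    ∃ i j, i ≠ j ∧ ∃ M : ℕ, π ^ M = Equiv.swap i j := by
  classical
  have hsr : ¬ s ∣ r := by
    intro h
    have h1 := hodd s hs h
    rw [hs2] at h1
    exact absurd h1 (by decide)
  have hsep : (s * r).Separable := by
    refine Separable.mul (PerfectField.separable_of_irreducible hs)
      (PerfectField.separable_iff_squarefree.2 hr) ?_
    rw [hs.coprime_iff_not_dvd]
    exact hsr
  have hinj : Function.Injective a := by
    rw [← separable_prod_X_sub_C_iff, hP]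
    exact hsep.map
  have hroot : ∀ i, (s.map ψ).eval (a i) = 0 ∨ (r.map ψ).eval (a i) = 0 := by
    intro i
    have h1 : (∏ i, (X - C (a i))).eval (a i) = 0 := by
      rw [eval_prod]
      exact Finset.prod_eq_zero (Finset.mem_univ i) (by simp)
    rw [hP, Polynomial.map_mul, eval_mul] at h1
    exact mul_eq_zero.1 h1
  have hs0 : s.map ψ ≠ 0 := by
    rw [Ne, Polynomial.map_eq_zero]
    exact hs.ne_zero
  have hr0 : r.map ψ ≠ 0 := by
    rw [Ne, Polynomial.map_eq_zero]
    exact hrm.ne_zero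
  have hn : n = 2 + r.natDegree := by
    have h1 := congrArg natDegree hP
    rw [natDegree_prod_of_monic _ _ fun j _ => monic_X_sub_C _, natDegree_map,
      natDegree_mul hs.ne_zero hrm.ne_zero, hs2] at h1
    simpa using h1
  have hbound : ∀ (f : K[X]) (T : Finset (Fin n)), f ≠ 0 → (∀ i ∈ T, f.eval (a i) = 0) →
      T.card ≤ f.natDegree := by
    intro f T hf hT
    rw [← Finset.card_image_of_injective T hinj]
    refine le_trans (Finset.card_le_card ?_) ((Multiset.toFinset_card_le _).trans (card_roots' f))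
    intro y hy
    obtain ⟨i, hi, rfl⟩ := Finset.mem_image.1 hy
    rw [Multiset.mem_toFinset, mem_roots hf]
    exact hT i hi
  -- a root of `s`
  have hex : ∃ i, (s.map ψ).eval (a i) = 0 := by
    by_contra hcon
    push Not at hcon
    have h1 := hbound (r.map ψ) Finset.univ hr0 fun i _ => (hroot i).resolve_left (hcon i)
    rw [Finset.card_univ, Fintype.card_fin, natDegree_map] at h1
    omega
  obtain ⟨i, hi⟩ := hex
  have hij : i ≠ π i := by
    intro h
    have h1 := ha i
    rw [← h] at h1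
    obtain ⟨t, ht⟩ := mem_prime ψ h1.symm
    rw [← ht, eval_map, eval₂_hom] at hi
    have h2 := degree_eq_one_of_irreducible_of_root hs ((map_eq_zero ψ).1 hi)
    have h3 : s.natDegree = 1 := natDegree_eq_of_degree_eq_some h2
    omega
  have hpow : ∀ (m : ℕ) x, a ((π ^ m) x) = a x ^ l ^ m := by
    intro m x
    induction m with
    | zero => simp
    | succ m ih => rw [pow_succ', Equiv.Perm.mul_apply, ha, ih, ← pow_mul, ← pow_succ]
  have h2i : (π ^ 2) i = i := by
    apply hinj
    rw [hpow]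
    have h1 := pow_root ψ hs hi
    rwa [hs2] at h1
  have hπi : π (π i) = i := by
    have h1 := h2i
    rwa [pow_two, Equiv.Perm.mul_apply] at h1
  have hjr : (s.map ψ).eval (a (π i)) = 0 := by
    rw [ha, eval_map]
    have h1 : ψ.comp (frobenius (ZMod l) l) = ψ := RingHom.ext_zmod _ _
    have h2 : (frobenius K l).comp ψ = ψ := RingHom.ext_zmod _ _
    have h3 := hom_eval₂ s ψ (frobenius K l) (a i)
    rw [h2, ← eval_map, hi, map_zero] at h3
    rw [frobenius_def] at h3
    exact h3.symm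
  refine ⟨i, π i, hij, ∏ m ∈ Finset.range n, (2 * m + 1), ?_⟩
  have hModd : Odd (∏ m ∈ Finset.range n, (2 * m + 1)) := by
    refine Finset.prod_induction _ Odd (fun _ _ => Odd.mul) odd_one fun m _ => ⟨m, rfl⟩
  set M := ∏ m ∈ Finset.range n, (2 * m + 1) with hM
  obtain ⟨u, hu⟩ := hModd
  have hMi : (π ^ M) i = π i := by
    have h1 : ∀ v : ℕ, (π ^ (2 * v + 1)) i = π i := by
      intro v
      rw [pow_succ', Equiv.Perm.mul_apply, pow_mul]
      congr 1
      induction v with
      | zero => simp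
      | succ v ih => rw [pow_succ', Equiv.Perm.mul_apply, ih, h2i]
    rw [hu, h1]
  have hMj : (π ^ M) (π i) = i := by
    have h1 : ∀ v : ℕ, (π ^ (2 * v + 1)) (π i) = i := by
      intro v
      rw [pow_succ, Equiv.Perm.mul_apply, hπi, pow_mul]
      induction v with
      | zero => simp
      | succ v ih => rw [pow_succ', Equiv.Perm.mul_apply, ih, h2i]
    rw [hu, h1]
  ext x
  congr 1
  by_cases hxi : x = i
  · rw [hxi, hMi, Equiv.swap_apply_left]
  by_cases hxj : x = π i
  · rw [hxj, hMj, Equiv.swap_apply_right]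
  rw [Equiv.swap_apply_of_ne_of_ne hxi hxj]
  have hxs : (s.map ψ).eval (a x) ≠ 0 := by
    intro h
    have h1 := hbound (s.map ψ) {x, i, π i} hs0 (by
      intro y hy
      simp only [Finset.mem_insert, Finset.mem_singleton] at hy
      rcases hy with rfl | rfl | rfl
      · exact h
      · exact hi
      · exact hjr)
    rw [Finset.card_insert_of_notMem (by simp [hxi, hxj]), Finset.card_pair hij, natDegree_map,
      hs2] at h1
    omega
  have hxr : (r.map ψ).eval (a x) = 0 := (hroot x).resolve_left hxs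
  let _ : Algebra (ZMod l) K := ψ.toAlgebra
  have hψ : algebraMap (ZMod l) K = ψ := rfl
  have hae : aeval (a x) r = 0 := by
    rw [aeval_def, hψ, ← eval_map]
    exact hxr
  have hint : IsIntegral (ZMod l) (a x) := ⟨r, hrm, by rw [← aeval_def]; exact hae⟩
  have htd := minpoly.dvd (ZMod l) (a x) hae
  have hti := minpoly.irreducible hint
  have hx0 : ((minpoly (ZMod l) (a x)).map ψ).eval (a x) = 0 := by
    rw [eval_map, ← hψ, ← aeval_def]
    exact minpoly.aeval _ _
  have h1 := pow_root ψ hti hx0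
  have h2 := hodd _ hti htd
  have h3 := natDegree_le_of_dvd htd hrm.ne_zero
  set N := (minpoly (ZMod l) (a x)).natDegree with hN
  obtain ⟨v, hv⟩ := h2
  have hNM : N ∣ M := by
    rw [hM, hv]
    exact Finset.dvd_prod_of_mem (fun m => 2 * m + 1) (Finset.mem_range.2 (by omega))
  have hNx : (π ^ N) x = x := by
    apply hinj
    rw [hpow, h1]
  obtain ⟨w, hw⟩ := hNM
  rw [hw, pow_mul]
  clear hw
  induction w with
  | zero => simp
  | succ w ih => rw [pow_succ', Equiv.Perm.mul_apply, ih, hNx]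

/-- The group theory. -/
theorem grp {n : ℕ} (G : Subgroup (Equiv.Perm (Fin n)))
    (htr : ∀ i j, ∃ τ ∈ G, τ i = j) (i₀ : Fin n) (π : Equiv.Perm (Fin n)) (hπ : π ∈ G)
    (hfix : π i₀ = i₀) (hcyc : ∀ i j, i ≠ i₀ → j ≠ i₀ → ∃ m : ℕ, (π ^ m) i = j)
    (a b : Fin n) (hab : a ≠ b) (hsw : Equiv.swap a b ∈ G) : G = ⊤ := by
  have hfixm : ∀ m : ℕ, (π ^ m) i₀ = i₀ := by
    intro m
    induction m with
    | zero => rfl
    | succ m ih => rw [pow_succ, Equiv.Perm.mul_apply, hfix, ih]
  obtain ⟨τ, hτ, hτa⟩ := htr a i₀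
  have hd : τ b ≠ i₀ := by
    intro h
    apply hab
    apply τ.injective
    rw [hτa, h]
  have h1 : Equiv.swap i₀ (τ b) ∈ G := by
    rw [← hτa, Equiv.swap_apply_apply]
    exact G.mul_mem (G.mul_mem hτ hsw) (G.inv_mem hτ)
  have h2 : ∀ z, z ≠ i₀ → Equiv.swap i₀ z ∈ G := by
    intro z hz
    obtain ⟨m, hm⟩ := hcyc (τ b) z hd hz
    have h3 : Equiv.swap i₀ z = Equiv.swap ((π ^ m) i₀) ((π ^ m) (τ b)) := by rw [hfixm, hm]
    rw [h3, Equiv.swap_apply_apply]
    exact G.mul_mem (G.mul_mem (G.pow_mem hπ m) h1) (G.inv_mem (G.pow_mem hπ m))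
  rw [eq_top_iff, ← Equiv.Perm.closure_isSwap, Subgroup.closure_le]
  rintro _ ⟨x, y, hxy, rfl⟩
  show Equiv.swap x y ∈ G
  by_cases hx : x = i₀
  · rw [hx]
    exact h2 y fun h => hxy (hx.trans h.symm)
  by_cases hy : y = i₀
  · rw [hy, Equiv.swap_comm]
    exact h2 x hx
  have h3 : Equiv.swap x y = Equiv.swap ((Equiv.swap i₀ x) i₀) ((Equiv.swap i₀ x) y) := by
    rw [Equiv.swap_apply_left, Equiv.swap_apply_of_ne_of_ne hy (Ne.symm hxy)]
  rw [h3, Equiv.swap_apply_apply]
  exact G.mul_mem (G.mul_mem (h2 x hx) (h2 y hy)) (G.inv_mem (h2 x hx))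

/-- The Frobenius permutation. -/
theorem frobPerm {L : Type} [Field L] [NumberField L] [IsGalois ℚ L] (h : ℤ[X]) (hm : h.Monic)
    {g : ℕ} (θ : Fin g → L) (hθ : Function.Injective θ)
    (hprod : h.map (Int.castRingHom L) = ∏ i, (X - C (θ i))) (l : ℕ) [Fact l.Prime] :
    ∃ (π : Equiv.Perm (Fin g)) (σ : L ≃ₐ[ℚ] L) (K : Type) (_ : Field K)
      (_ : CharP K l) (ψ : ZMod l →+* K) (a : Fin g → K), (∀ i, σ (θ i) = θ (π i)) ∧
      (∀ i, a (π i) = a i ^ l) ∧
      ∏ i, (X - C (a i)) = (h.map (Int.castRingHom (ZMod l))).map ψ := by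
  classical
  have hl : l.Prime := Fact.out
  obtain ⟨K, hK, hchar, φ, σ, hσ⟩ := Pool.Agent.W521.Frob.exists_frob L l hl
  have hroot : ∀ i, (h.map (Int.castRingHom L)).eval (θ i) = 0 := by
    intro i
    rw [hprod, eval_prod]
    exact Finset.prod_eq_zero (Finset.mem_univ i) (by simp)
  have hint : ∀ i, IsIntegral ℤ (θ i) := by
    intro i
    refine ⟨h, hm, ?_⟩
    rw [← hroot i, eval_map]
    rfl
  let Z : Fin g → 𝓞 L := fun i => ⟨θ i, hint i⟩
  have hZ : ∀ i, algebraMap (𝓞 L) L (Z i) = θ i := fun i => rfl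
  have hex : ∀ i, ∃ j, σ (θ i) = θ j := by
    intro i
    have h1 : (h.map (Int.castRingHom L)).eval (σ (θ i)) = 0 := by
      have h2 := congrArg σ (hroot i)
      rw [map_zero, eval_map] at h2
      rw [eval_map]
      have h3 := hom_eval₂ h (Int.castRingHom L) (σ : L →+* L) (θ i)
      have h4 : (σ : L →+* L).comp (Int.castRingHom L) = Int.castRingHom L := RingHom.ext_int _ _
      rw [h4] at h3
      rw [← h2]
      exact h3.symm
    rw [hprod, eval_prod, Finset.prod_eq_zero_iff] at h1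
    obtain ⟨j, -, hj⟩ := h1
    refine ⟨j, ?_⟩
    rw [eval_sub, eval_X, eval_C, sub_eq_zero] at hj
    exact hj
  choose p hp using hex
  have hpi : Function.Injective p := by
    intro i j hij
    apply hθ
    apply σ.injective
    rw [hp, hp, hij]
  let π : Equiv.Perm (Fin g) := Equiv.ofBijective p (Finite.injective_iff_bijective.1 hpi)
  have hπ : ∀ i, π i = p i := fun i => rfl
  have hpZ : ∏ i, (X - C (Z i)) = h.map (Int.castRingHom (𝓞 L)) := by
    apply Polynomial.map_injective (algebraMap (𝓞 L) L) RingOfIntegers.coe_injective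
    rw [Polynomial.map_map, Polynomial.map_prod]
    have h1 : (algebraMap (𝓞 L) L).comp (Int.castRingHom (𝓞 L)) = Int.castRingHom L :=
      RingHom.ext_int _ _
    rw [h1, hprod]
    refine Finset.prod_congr rfl fun i _ => ?_
    rw [Polynomial.map_sub, map_X, map_C, hZ]
  refine ⟨π, σ, K, hK, hchar, ZMod.castHom dvd_rfl K, fun i => φ (Z i),
    fun i => by rw [hπ, hp], fun i => ?_, ?_⟩
  · have h1 : Z (π i) = σ • Z i := by
      apply RingOfIntegers.coe_injective
      show θ (π i) = σ (θ i)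
      rw [hπ, hp]
    show φ (Z (π i)) = φ (Z i) ^ l
    rw [h1, hσ]
  · rw [Polynomial.map_map]
    have h1 : (ZMod.castHom dvd_rfl K).comp (Int.castRingHom (ZMod l)) =
        φ.comp (Int.castRingHom (𝓞 L)) := RingHom.ext_int _ _
    rw [h1, ← Polynomial.map_map, ← hpZ, Polynomial.map_prod]
    refine Finset.prod_congr rfl fun i _ => ?_
    rw [Polynomial.map_sub, map_X, map_C]

/-- The criterion, in a splitting field. -/
theorem main (L : Type) [Field L] [CharZero L] [alg : Algebra ℚ L] (g : ℕ) (h : ℤ[X]) (hg : 5 ≤ g)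
    (hm : h.Monic) (hdeg : h.natDegree = g) (hirr : Irreducible h)
    (hsf : IsSplittingField ℚ L (h.map (Int.castRingHom ℚ)))
    (hB : ∃ (l : ℕ) (_ : Fact l.Prime) (c : ZMod l) (r : (ZMod l)[X]), r.Monic ∧ Irreducible r ∧
      r.natDegree = g - 1 ∧ h.map (Int.castRingHom (ZMod l)) = (X - C c) * r)
    (hC : ∃ (l : ℕ) (_ : Fact l.Prime) (s r : (ZMod l)[X]), s.Monic ∧ Irreducible s ∧
      s.natDegree = 2 ∧ r.Monic ∧ Squarefree r ∧ r.natDegree = g - 2 ∧
      (∀ t : (ZMod l)[X], Irreducible t → t ∣ r → Odd t.natDegree) ∧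
      h.map (Int.castRingHom (ZMod l)) = s * r) :
    Nat.card (L ≃ₐ[ℚ] L) = g.factorial := by
  classical
  obtain rfl : alg = DivisionRing.toRatAlgebra := Subsingleton.elim _ _
  set f : ℚ[X] := h.map (Int.castRingHom ℚ) with hf
  have hfm : f.Monic := hm.map _
  have hfi : Irreducible f := by
    have h1 := (hm.irreducible_iff_irreducible_map_fraction_map (K := ℚ)).1 hirr
    rw [algebraMap_int_eq] at h1
    exact h1
  have hfs : f.Separable := hfi.separable
  have hfd' : FiniteDimensional ℚ L := IsSplittingField.finiteDimensional L f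
  have hnf : NumberField L := ⟨⟩
  have hgal : IsGalois ℚ L := IsGalois.of_separable_splitting_field hfs
  have hfd : f.natDegree = g := by
    rw [hf, natDegree_map_eq_of_injective (RingHom.injective_int _), hdeg]
  -- the roots
  have hsplit : (f.map (algebraMap ℚ L)).Splits := IsSplittingField.splits L f
  have hcard : Nat.card (f.rootSet L) = g := by
    rw [Nat.card_eq_fintype_card, card_rootSet_eq_natDegree hfs hsplit, hfd]
  have hfin : Finite (f.rootSet L) := inferInstance
  let e : Fin g ≃ f.rootSet L := (Finite.equivFinOfCardEq hcard).symm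
  let θ : Fin g → L := fun i => (e i : L)
  have hθ : Function.Injective θ := fun i j hij => e.injective (Subtype.ext hij)
  have hmem : ∀ x : L, aeval x f = 0 → ∃ i, θ i = x := by
    intro x hx
    have h1 : x ∈ f.rootSet L := mem_rootSet.2 ⟨hfm.ne_zero, hx⟩
    refine ⟨e.symm ⟨x, h1⟩, ?_⟩
    show ((e (e.symm ⟨x, h1⟩) : f.rootSet L) : L) = x
    rw [e.apply_symm_apply]
  have hθr : ∀ i, aeval (θ i) f = 0 := fun i => (mem_rootSet.1 (e i).2).2
  have hprod : h.map (Int.castRingHom L) = ∏ i, (X - C (θ i)) := by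
    have h1 : h.map (Int.castRingHom L) = f.map (algebraMap ℚ L) := by
      rw [hf, Polynomial.map_map]
      congr 1
      exact RingHom.ext_int _ _
    rw [h1]
    have hfm' : (f.map (algebraMap ℚ L)).Monic := hfm.map _
    apply eq_of_monic_of_dvd_of_natDegree_le
      (monic_prod_of_monic _ _ fun i _ => monic_X_sub_C _) hfm'
    · refine Finset.prod_dvd_of_coprime (fun i _ j _ hij => ?_) fun i _ => ?_
      · exact isCoprime_X_sub_C_of_isUnit_sub (isUnit_iff_ne_zero.2
          (sub_ne_zero.2 fun h => hij (hθ h)))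
      · rw [dvd_iff_isRoot, IsRoot.def, eval_map, ← aeval_def]
        exact hθr i
    · rw [natDegree_map, hfd, natDegree_prod_of_monic _ _ fun j _ => monic_X_sub_C _]
      simp
  -- the group of permutations
  let G : Subgroup (Equiv.Perm (Fin g)) :=
    { carrier := {π | ∃ σ : L ≃ₐ[ℚ] L, ∀ i, σ (θ i) = θ (π i)}
      mul_mem' := by
        rintro π₁ π₂ ⟨σ₁, h₁⟩ ⟨σ₂, h₂⟩
        refine ⟨σ₁ * σ₂, fun i => ?_⟩
        rw [AlgEquiv.mul_apply, h₂, h₁, Equiv.Perm.mul_apply]
      one_mem' := ⟨1, fun i => rfl⟩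
      inv_mem' := by
        rintro π ⟨σ, h₁⟩
        refine ⟨σ⁻¹, fun i => ?_⟩
        apply σ.injective
        rw [h₁, ← AlgEquiv.mul_apply, mul_inv_cancel, ← Equiv.Perm.mul_apply, mul_inv_cancel]
        rfl }
  have hG : ∀ π, π ∈ G ↔ ∃ σ : L ≃ₐ[ℚ] L, ∀ i, σ (θ i) = θ (π i) :=
    fun π => Iff.rfl
  have hperm : ∀ σ : L ≃ₐ[ℚ] L, ∃ π : Equiv.Perm (Fin g),
      ∀ i, σ (θ i) = θ (π i) := by
    intro σ
    have hex : ∀ i, ∃ j, σ (θ i) = θ j := by
      intro i
      obtain ⟨j, hj⟩ := hmem (σ (θ i)) (by rw [aeval_algHom_apply, hθr, map_zero])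
      exact ⟨j, hj.symm⟩
    choose p hp using hex
    have hpi : Function.Injective p := by
      intro i j hij
      apply hθ
      apply σ.injective
      rw [hp, hp, hij]
    exact ⟨Equiv.ofBijective p (Finite.injective_iff_bijective.1 hpi), hp⟩
  choose P hPσ using hperm
  have hPinj : Function.Injective P := by
    intro σ τ hστ
    have h1 : (σ : L →ₐ[ℚ] L) = τ := by
      apply AlgHom.ext_of_adjoin_eq_top (IsSplittingField.adjoin_rootSet L f)
      intro x hx
      obtain ⟨i, rfl⟩ := hmem x (mem_rootSet.1 hx).2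
      show σ (θ i) = τ (θ i)
      rw [hPσ, hPσ, hστ]
    exact AlgEquiv.coe_toAlgHom_injective h1
  -- transitivity
  have htr : ∀ i j, ∃ τ ∈ G, τ i = j := by
    intro i j
    have hmi : ∀ i, minpoly ℚ (θ i) = f := fun i =>
      (minpoly.eq_of_irreducible_of_monic hfi (hθr i) hfm).symm
    obtain ⟨σ, hσ⟩ := (Normal.minpoly_eq_iff_mem_orbit (F := ℚ) L).1
      ((hmi j).trans (hmi i).symm)
    refine ⟨P σ, ⟨σ, hPσ σ⟩, ?_⟩
    apply hθ
    rw [← hPσ]
    exact hσ
  have htop : G = ⊤ := by
    obtain ⟨l, hl, c, r, hrm, hri, hrd, hB⟩ := hB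
    obtain ⟨l', hl', s, r', hsm, hsi, hsd, hrm', hrs', hrd', hodd, hC⟩ := hC
    obtain ⟨π, σ, K, _, _, ψ, a, h1, h2, h3⟩ := frobPerm h hm θ hθ hprod l
    obtain ⟨π', σ', K', _, _, ψ', a', h1', h2', h3'⟩ := frobPerm h hm θ hθ hprod l'
    rw [hB] at h3
    rw [hC] at h3'
    obtain ⟨i₀, hfix, hcyc⟩ := fin_A ψ (by omega) a π h2 c r hri (by omega) h3
    obtain ⟨i, j, hij, M, hM⟩ := fin_C ψ' a' π' h2' s r' hsi hsd hrm' hrs' hodd h3'
    refine grp G htr i₀ π ⟨σ, h1⟩ hfix hcyc i j hij ?_
    rw [← hM]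
    exact G.pow_mem ⟨σ', h1'⟩ M
  have hPsurj : Function.Surjective P := by
    intro π
    obtain ⟨σ, hσ⟩ := (hG π).1 (by rw [htop]; trivial)
    refine ⟨σ, ?_⟩
    ext i
    congr 1
    apply hθ
    rw [← hPσ, hσ]
  have h1 : Nat.card (L ≃ₐ[ℚ] L) = Nat.card (Equiv.Perm (Fin g)) :=
    Nat.card_congr (Equiv.ofBijective P ⟨hPinj, hPsurj⟩)
  rw [h1, Nat.card_eq_fintype_card, Fintype.card_perm, Fintype.card_fin]

/-- **B8a**: a criterion for the symmetric group. -/
theorem b8a : B8a := by
  intro g h hg hm hdeg hA hB hC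
  have hirr : Irreducible h := by
    obtain ⟨l, hl, h1⟩ := hA
    exact hm.irreducible_of_irreducible_map (Int.castRingHom (ZMod l)) h h1
  have h0 : CharZero (h.map (Int.castRingHom ℚ)).SplittingField :=
    charZero_of_injective_algebraMap
      (algebraMap ℚ (h.map (Int.castRingHom ℚ)).SplittingField).injective
  exact ⟨hirr, main (alg := SplittingField.instAlgebra _) (h.map (Int.castRingHom ℚ)).SplittingField
    g h hg hm hdeg hirr (IsSplittingField.splittingField _) hB hC⟩

end Pool.Agent.H53.SGB8a
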