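import Pool.Agent.H857.SG.Core

/-!
# Densities of three factorisation patterns modulo a prime
-/

set_option autoImplicit false

namespace Pool.Agent.H864.SGB8b

open Module Polynomial Pool.Agent.W521.Descent Pool.Agent.W521.Density Pool.Agent.W521.Count
  Pool.Agent.X297.UB Pool.Agent.H857.PB Pool.Agent.H857.PA Pool.Agent.H857.HK Pool.Agent.H857.EF
  Pool.Agent.H857.WT Pool.Agent.H857.SG

section

variable {l : ℕ} [Fact l.Prime]

theorem count {α : Type} (g : ℕ) (A : Finset α) (F : α → (ZMod l)[X])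
    (P : (ZMod l)[X] → Prop) (hm : ∀ a ∈ A, (F a).Monic) (hd : ∀ a ∈ A, (F a).natDegree = g)
    (hP : ∀ a ∈ A, P (F a)) (hi : Set.InjOn F A) :
    A.card ≤ {x : Fin g → ZMod l | P (mkPoly g x)}.ncard := by
  classical
  have h1 : ∀ a ∈ A, mkPoly g (fun k : Fin g => (F a).coeff k) = F a := fun a ha =>
    eq_mkPoly (hm a ha) (hd a ha)
  have h2 : ((A.image (fun a => (fun k : Fin g => (F a).coeff k)) : Finset (Fin g → ZMod l)) :
      Set (Fin g → ZMod l)) ⊆ {x : Fin g → ZMod l | P (mkPoly g x)} := by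
    intro x hx
    obtain ⟨a, ha, rfl⟩ := Finset.mem_image.1 (Finset.mem_coe.1 hx)
    change P (mkPoly g (fun k : Fin g => (F a).coeff k))
    rw [h1 a ha]
    exact hP a ha
  have h3 := Set.ncard_le_ncard h2 (Set.toFinite _)
  rw [Set.ncard_coe_finset, Finset.card_image_of_injOn] at h3
  · exact h3
  · intro a ha b hb hab
    refine hi ha hb ?_
    rw [← h1 a ha, ← h1 b hb]
    exact congrArg (mkPoly g) hab

theorem mem_irrSet {g : ℕ} (a : Fin g → ZMod l) (h : a ∈ irrSet l g) :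
    Irreducible (mkPoly g a) := by
  classical
  unfold irrSet at h
  exact (Finset.mem_filter.1 h).2

theorem not_dvd_of {r s : (ZMod l)[X]} (hs : s ≠ 0)
    (hd : s.natDegree < r.natDegree) : ¬ r ∣ s := by
  intro h1
  have h2 := natDegree_le_of_dvd h1 hs
  omega

theorem eq_of {r r' : (ZMod l)[X]} (hr : r.Monic) (hr' : r'.Monic)
    (hd : r.natDegree = r'.natDegree) (h : r ∣ r') : r = r' := by
  exact (Polynomial.eq_of_monic_of_dvd_of_natDegree_le hr hr' h hd.symm.le).symm

theorem cancel {s s' r : (ZMod l)[X]} (hr : r ≠ 0) (h : s * r = s' * r) : s = s' :=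
  mul_right_cancel₀ hr h

theorem inj_two {s r s' r' : (ZMod l)[X]} (hr : r.Monic) (hr' : r'.Monic)
    (hi : Irreducible r') (hd : r.natDegree = r'.natDegree) (hsr : ¬ r' ∣ s)
    (h : s * r = s' * r') : s = s' ∧ r = r' := by
  have h1 : r' ∣ s * r := ⟨s', by rw [h]; ring⟩
  have h2 := (hi.prime.dvd_or_dvd h1).resolve_left hsr
  have h3 := (eq_of hr' hr hd.symm h2).symm
  subst h3
  exact ⟨cancel hr.ne_zero h, rfl⟩

theorem natDegree_of_dvd {t r : (ZMod l)[X]} (ht : Irreducible t) (hr : Irreducible r)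
    (h : t ∣ r) : t.natDegree = r.natDegree :=
  natDegree_eq_of_degree_eq (degree_eq_degree_of_associated
    ((ht.dvd_irreducible_iff_associated hr).1 h))

theorem cardA (g : ℕ) (hl : 3 ≤ l) (hg : 0 < g) :
    (l : ℝ) ^ g ≤ 2 * g * ((irrSet l g).card : ℝ) := by
  have h := card_irrSet l g hl hg
  exact_mod_cast h

theorem evA (g : ℕ) (hg : 5 ≤ g) (hl : 3 ≤ l) :
    1 / (8 * (g : ℝ)) * (l : ℝ) ^ g ≤ ({x : Fin g → ZMod l | EvA g l x}.ncard : ℝ) := by
  have h1 := count (l := l) g (irrSet l g) (fun a => mkPoly g a) (fun p => Irreducible p)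
    (fun a _ => mkPoly_monic g a) (fun a _ => mkPoly_natDegree g a)
    (fun a ha => mem_irrSet a ha) (fun a _ b _ h => mkPoly_injective g h)
  have h2 := cardA (l := l) g hl (by omega)
  have h3 : ((irrSet l g).card : ℝ) ≤ ({x : Fin g → ZMod l | EvA g l x}.ncard : ℝ) := by
    exact_mod_cast h1
  have hg0 : (0 : ℝ) < g := by
    have : 0 < g := by omega
    exact_mod_cast this
  rw [one_div, inv_mul_le_iff₀ (by positivity)]
  nlinarith [h2, h3, hg0]

theorem evB (g : ℕ) (hg : 5 ≤ g) (hl : 3 ≤ l) :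
    1 / (8 * (g : ℝ)) * (l : ℝ) ^ g ≤ ({x : Fin g → ZMod l | EvB g l x}.ncard : ℝ) := by
  classical
  have h1 := count (l := l) g ((Finset.univ : Finset (ZMod l)) ×ˢ irrSet l (g - 1))
    (fun a => (X - C a.1) * mkPoly (g - 1) a.2)
    (fun p => ∃ (c : ZMod l) (r : (ZMod l)[X]), r.Monic ∧ Irreducible r ∧
      r.natDegree = g - 1 ∧ p = (X - C c) * r)
    (fun a _ => (monic_X_sub_C a.1).mul (mkPoly_monic _ _))
    (fun a _ => by
      rw [(monic_X_sub_C a.1).natDegree_mul (mkPoly_monic _ _), natDegree_X_sub_C,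
        mkPoly_natDegree]
      omega)
    (fun a ha => ⟨a.1, mkPoly (g - 1) a.2, mkPoly_monic _ _,
      mem_irrSet _ (Finset.mem_product.1 ha).2, mkPoly_natDegree _ _, rfl⟩)
    (by
      rintro ⟨c, a⟩ ha ⟨c', a'⟩ ha' h
      have ha2 := (Finset.mem_product.1 (Finset.mem_coe.1 ha')).2
      have h3 := inj_two (mkPoly_monic (g - 1) a) (mkPoly_monic (g - 1) a')
        (mem_irrSet _ ha2) (by rw [mkPoly_natDegree, mkPoly_natDegree])
        (not_dvd_of (X_sub_C_ne_zero c) (by rw [natDegree_X_sub_C, mkPoly_natDegree]; omega)) h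
      have h4 := mkPoly_injective (g - 1) h3.2
      have h5 : c = c' := C_injective (sub_right_injective h3.1)
      rw [h4, h5])
  rw [Finset.card_product, Finset.card_univ, ZMod.card] at h1
  have h2 := cardA (l := l) (g - 1) hl (by omega)
  have h3 : (l : ℝ) * ((irrSet l (g - 1)).card : ℝ) ≤
      ({x : Fin g → ZMod l | EvB g l x}.ncard : ℝ) := by
    exact_mod_cast h1
  have hg0 : (1 : ℝ) ≤ g := by
    have : 1 ≤ g := by omega
    exact_mod_cast this
  have hg1 : ((g - 1 : ℕ) : ℝ) = g - 1 := by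
    push_cast [Nat.cast_sub (show 1 ≤ g by omega)]
    ring
  rw [hg1] at h2
  have h4 : (l : ℝ) ^ g = (l : ℝ) * (l : ℝ) ^ (g - 1) := by
    rw [← pow_succ']
    congr 1
    omega
  have hl0 : (0 : ℝ) ≤ l := Nat.cast_nonneg l
  have h5 : (l : ℝ) * (l : ℝ) ^ (g - 1) ≤
      (2 * ((g : ℝ) - 1)) * ((l : ℝ) * ((irrSet l (g - 1)).card : ℝ)) := by
    have := mul_le_mul_of_nonneg_left h2 hl0
    linarith
  have h6 : (2 * ((g : ℝ) - 1)) * ((l : ℝ) * ((irrSet l (g - 1)).card : ℝ)) ≤
      (8 * g) * ({x : Fin g → ZMod l | EvB g l x}.ncard : ℝ) := by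
    refine mul_le_mul (by linarith) h3 (by positivity) (by positivity)
  rw [one_div, inv_mul_le_iff₀ (by positivity), h4]
  linarith

theorem evC_odd (g : ℕ) (hg : 5 ≤ g) (ho : Odd g) (hl : 3 ≤ l) :
    1 / (8 * (g : ℝ)) * (l : ℝ) ^ g ≤ ({x : Fin g → ZMod l | EvC g l x}.ncard : ℝ) := by
  classical
  have ho2 : Odd (g - 2) := by
    obtain ⟨k, hk⟩ := ho
    exact ⟨k - 1, by omega⟩
  have h1 := count (l := l) g (irrSet l 2 ×ˢ irrSet l (g - 2))
    (fun a => mkPoly 2 a.1 * mkPoly (g - 2) a.2)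
    (fun p => ∃ (s r : (ZMod l)[X]), s.Monic ∧ Irreducible s ∧ s.natDegree = 2 ∧ r.Monic ∧
      Squarefree r ∧ r.natDegree = g - 2 ∧
      (∀ t : (ZMod l)[X], Irreducible t → t ∣ r → Odd t.natDegree) ∧ p = s * r)
    (fun a _ => (mkPoly_monic _ _).mul (mkPoly_monic _ _))
    (fun a _ => by
      rw [(mkPoly_monic _ _).natDegree_mul (mkPoly_monic _ _), mkPoly_natDegree,
        mkPoly_natDegree]
      omega)
    (fun a ha => by
      have ha1 := mem_irrSet _ (Finset.mem_product.1 ha).1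
      have ha2 := mem_irrSet _ (Finset.mem_product.1 ha).2
      refine ⟨mkPoly 2 a.1, mkPoly (g - 2) a.2, mkPoly_monic _ _, ha1, mkPoly_natDegree _ _,
        mkPoly_monic _ _, ha2.squarefree, mkPoly_natDegree _ _, ?_, rfl⟩
      intro t ht htd
      rw [natDegree_of_dvd ht ha2 htd, mkPoly_natDegree]
      exact ho2)
    (by
      rintro ⟨c, a⟩ ha ⟨c', a'⟩ ha' h
      have ha2 := (Finset.mem_product.1 (Finset.mem_coe.1 ha')).2
      have h3 := inj_two (mkPoly_monic (g - 2) a)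
        (mkPoly_monic (g - 2) a') (mem_irrSet _ ha2)
        (by rw [mkPoly_natDegree, mkPoly_natDegree])
        (not_dvd_of (mkPoly_monic 2 c).ne_zero
          (by rw [mkPoly_natDegree, mkPoly_natDegree]; omega)) h
      have h4 := mkPoly_injective (g - 2) h3.2
      have h5 := mkPoly_injective 2 h3.1
      rw [h4, h5])
  rw [Finset.card_product] at h1
  have h2 := cardA (l := l) (g - 2) hl (by omega)
  have h2' := cardA (l := l) 2 hl (by omega)
  have h3 : ((irrSet l 2).card : ℝ) * ((irrSet l (g - 2)).card : ℝ) ≤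
      ({x : Fin g → ZMod l | EvC g l x}.ncard : ℝ) := by
    exact_mod_cast h1
  have hg0 : (5 : ℝ) ≤ g := by exact_mod_cast hg
  have hg1 : ((g - 2 : ℕ) : ℝ) = g - 2 := by
    push_cast [Nat.cast_sub (show 2 ≤ g by omega)]
    ring
  rw [hg1] at h2
  have h4 : (l : ℝ) ^ g = (l : ℝ) ^ 2 * (l : ℝ) ^ (g - 2) := by
    rw [← pow_add]
    congr 1
    omega
  have h5 : (l : ℝ) ^ 2 * (l : ℝ) ^ (g - 2) ≤
      (2 * ((2 : ℕ) : ℝ) * ((irrSet l 2).card : ℝ)) *
        (2 * ((g : ℝ) - 2) * ((irrSet l (g - 2)).card : ℝ)) :=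
    mul_le_mul h2' h2 (by positivity) (by positivity)
  have h6 : (8 * ((g : ℝ) - 2)) * (((irrSet l 2).card : ℝ) * ((irrSet l (g - 2)).card : ℝ)) ≤
      (8 * g) * ({x : Fin g → ZMod l | EvC g l x}.ncard : ℝ) := by
    refine mul_le_mul (by linarith) h3 (by positivity) (by positivity)
  rw [one_div, inv_mul_le_iff₀ (by positivity), h4]
  push_cast at h5
  linarith

theorem evC_even (g : ℕ) (hg : 5 ≤ g) (he : Even g) (hl : 3 ≤ l) :
    1 / (8 * (g : ℝ)) * (l : ℝ) ^ g ≤ ({x : Fin g → ZMod l | EvC g l x}.ncard : ℝ) := by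
  classical
  have hg6 : 6 ≤ g := by
    obtain ⟨k, hk⟩ := he
    omega
  have ho3 : Odd (g - 3) := by
    obtain ⟨k, hk⟩ := he
    exact ⟨k - 2, by omega⟩
  have h1 := count (l := l) g
    ((irrSet l 2 ×ˢ (Finset.univ : Finset (ZMod l))) ×ˢ irrSet l (g - 3))
    (fun a => (mkPoly 2 a.1.1 * (X - C a.1.2)) * mkPoly (g - 3) a.2)
    (fun p => ∃ (s r : (ZMod l)[X]), s.Monic ∧ Irreducible s ∧ s.natDegree = 2 ∧ r.Monic ∧
      Squarefree r ∧ r.natDegree = g - 2 ∧
      (∀ t : (ZMod l)[X], Irreducible t → t ∣ r → Odd t.natDegree) ∧ p = s * r)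
    (fun a _ => ((mkPoly_monic _ _).mul (monic_X_sub_C _)).mul (mkPoly_monic _ _))
    (fun a _ => by
      rw [((mkPoly_monic _ _).mul (monic_X_sub_C _)).natDegree_mul (mkPoly_monic _ _),
        (mkPoly_monic _ _).natDegree_mul (monic_X_sub_C _), mkPoly_natDegree,
        mkPoly_natDegree, natDegree_X_sub_C]
      omega)
    (fun a ha => by
      have ha1 := mem_irrSet _ (Finset.mem_product.1 (Finset.mem_product.1 ha).1).1
      have ha2 := mem_irrSet _ (Finset.mem_product.1 ha).2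
      have hx : Irreducible (X - C a.1.2 : (ZMod l)[X]) := irreducible_X_sub_C _
      refine ⟨mkPoly 2 a.1.1, (X - C a.1.2) * mkPoly (g - 3) a.2, mkPoly_monic _ _, ha1,
        mkPoly_natDegree _ _, (monic_X_sub_C _).mul (mkPoly_monic _ _), ?_, ?_, ?_, by ring⟩
      · have hcop : IsCoprime (X - C a.1.2 : (ZMod l)[X]) (mkPoly (g - 3) a.2) := by
          rw [Irreducible.coprime_iff_not_dvd hx]
          intro hd
          have h2 := natDegree_of_dvd hx ha2 hd
          rw [natDegree_X_sub_C, mkPoly_natDegree] at h2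
          omega
        exact (squarefree_mul_iff.2 ⟨hcop.isRelPrime, hx.squarefree, ha2.squarefree⟩)
      · rw [(monic_X_sub_C _).natDegree_mul (mkPoly_monic _ _), natDegree_X_sub_C,
          mkPoly_natDegree]
        omega
      · intro t ht htd
        rcases ht.prime.dvd_or_dvd htd with h2 | h2
        · rw [natDegree_of_dvd ht hx h2, natDegree_X_sub_C]
          exact odd_one
        · rw [natDegree_of_dvd ht ha2 h2, mkPoly_natDegree]
          exact ho3)
    (by
      rintro ⟨⟨c, d⟩, a⟩ ha ⟨⟨c', d'⟩, a'⟩ ha' h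
      have ha1 := (Finset.mem_product.1 (Finset.mem_product.1 (Finset.mem_coe.1 ha')).1).1
      have ha2 := (Finset.mem_product.1 (Finset.mem_coe.1 ha')).2
      have hi := mem_irrSet _ ha2
      have hnd : ¬ mkPoly (g - 3) a' ∣ mkPoly 2 c * (X - C d) := by
        intro hdv
        rcases hi.prime.dvd_or_dvd hdv with h2 | h2
        · exact not_dvd_of (mkPoly_monic 2 c).ne_zero
            (by rw [mkPoly_natDegree, mkPoly_natDegree]; omega) h2
        · exact not_dvd_of (X_sub_C_ne_zero d)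
            (by rw [natDegree_X_sub_C, mkPoly_natDegree]; omega) h2
      have h3 := inj_two (mkPoly_monic (g - 3) a)
        (mkPoly_monic (g - 3) a') hi
        (by rw [mkPoly_natDegree, mkPoly_natDegree]) hnd h
      have h4 := mkPoly_injective (g - 3) h3.2
      have h5 := inj_two (s := X - C d) (s' := X - C d')
        (mkPoly_monic 2 c) (mkPoly_monic 2 c')
        (mem_irrSet _ ha1) (by rw [mkPoly_natDegree, mkPoly_natDegree])
        (not_dvd_of (X_sub_C_ne_zero d) (by rw [natDegree_X_sub_C, mkPoly_natDegree]; omega))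
        (by rw [mul_comm, mul_comm (X - C d')]; exact h3.1)
      have h6 := mkPoly_injective 2 h5.2
      have h7 : d = d' := C_injective (sub_right_injective h5.1)
      rw [h4, h6, h7])
  rw [Finset.card_product, Finset.card_product, Finset.card_univ, ZMod.card] at h1
  have h2 := cardA (l := l) (g - 3) hl (by omega)
  have h2' := cardA (l := l) 2 hl (by omega)
  have h3 : ((irrSet l 2).card : ℝ) * (l : ℝ) * ((irrSet l (g - 3)).card : ℝ) ≤
      ({x : Fin g → ZMod l | EvC g l x}.ncard : ℝ) := by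
    exact_mod_cast h1
  have hg0 : (5 : ℝ) ≤ g := by exact_mod_cast hg
  have hg1 : ((g - 3 : ℕ) : ℝ) = g - 3 := by
    push_cast [Nat.cast_sub (show 3 ≤ g by omega)]
    ring
  rw [hg1] at h2
  have hl0 : (0 : ℝ) ≤ l := Nat.cast_nonneg l
  have h4 : (l : ℝ) ^ g = (l : ℝ) * ((l : ℝ) ^ 2 * (l : ℝ) ^ (g - 3)) := by
    rw [← pow_add, ← pow_succ']
    congr 1
    omega
  have h5 : (l : ℝ) ^ 2 * (l : ℝ) ^ (g - 3) ≤
      (2 * ((2 : ℕ) : ℝ) * ((irrSet l 2).card : ℝ)) *
        (2 * ((g : ℝ) - 3) * ((irrSet l (g - 3)).card : ℝ)) :=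
    mul_le_mul h2' h2 (by positivity) (by positivity)
  have h5' := mul_le_mul_of_nonneg_left h5 hl0
  have h6 : (8 * ((g : ℝ) - 3)) * (((irrSet l 2).card : ℝ) * (l : ℝ) *
      ((irrSet l (g - 3)).card : ℝ)) ≤
      (8 * g) * ({x : Fin g → ZMod l | EvC g l x}.ncard : ℝ) := by
    refine mul_le_mul (by linarith) h3 (by positivity) (by positivity)
  rw [one_div, inv_mul_le_iff₀ (by positivity), h4]
  push_cast at h5'
  linarith

end

theorem b8b : B8b := by
  intro g hg
  have hg0 : (0 : ℝ) < g := by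
    have : 0 < g := by omega
    exact_mod_cast this
  refine ⟨1 / (8 * (g : ℝ)), by positivity, ?_⟩
  intro l _ hl
  refine ⟨evA g hg hl, evB g hg hl, ?_⟩
  rcases Nat.even_or_odd g with he | ho
  · exact evC_even g hg he hl
  · exact evC_odd g hg ho hl

end Pool.Agent.H864.SGB8b
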