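import Pool.Agent.H857.SG.Core

/-!
# B9c: many good parameters with three patterns, all `k >= 2` (helper390)

Extension of the proofs of W15a (helper955) and W15b (helper969) by a third prime.
-/

set_option autoImplicit false

namespace Pool.Agent.H390.SGb9c

open Module Polynomial Pool.Agent.W521.Descent Pool.Agent.W521.Density Pool.Agent.W521.Count
  Pool.Agent.X297.UB Pool.Agent.H857.PB Pool.Agent.H857.PA Pool.Agent.H857.HK Pool.Agent.H857.EF
  Pool.Agent.H857.WT Pool.Agent.H857.SG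

/-- Chinese remainders with a representative in `[1, l₁ l₂]` -/
theorem crt {l₁ l₂ : ℕ} (h : Nat.Coprime l₁ l₂) (h1 : 0 < l₁) (h2 : 0 < l₂) (u : ZMod l₁)
    (v : ZMod l₂) : ∃ c : ℕ, 1 ≤ c ∧ c ≤ l₁ * l₂ ∧ (c : ZMod l₁) = u ∧ (c : ZMod l₂) = v := by
  have : NeZero (l₁ * l₂) := ⟨(Nat.mul_pos h1 h2).ne'⟩
  obtain ⟨z, hz⟩ : ∃ z, z = (ZMod.chineseRemainder h).symm (u, v) := ⟨_, rfl⟩
  have hc1 : ((z.val : ZMod (l₁ * l₂))) = z := ZMod.natCast_zmod_val z
  have h3 : ZMod.chineseRemainder h (z.val : ZMod (l₁ * l₂)) = (u, v) := by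
    rw [hc1, hz, RingEquiv.apply_symm_apply]
  rw [map_natCast] at h3
  have h4 : (z.val : ZMod l₁) = u := by
    have := congrArg Prod.fst h3
    rwa [Prod.fst_natCast] at this
  have h5 : (z.val : ZMod l₂) = v := by
    have := congrArg Prod.snd h3
    rwa [Prod.snd_natCast] at this
  by_cases h0 : z.val = 0
  · refine ⟨l₁ * l₂, Nat.mul_pos h1 h2, le_rfl, ?_, ?_⟩
    · rw [h0] at h4
      rw [Nat.cast_mul, ZMod.natCast_self, zero_mul, ← h4, Nat.cast_zero]
    · rw [h0] at h5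
      rw [Nat.cast_mul, ZMod.natCast_self, mul_zero, ← h5, Nat.cast_zero]
  · exact ⟨z.val, by omega, (ZMod.val_lt z).le, h4, h5⟩

/-- three moduli -/
theorem crt3 {l₁ l₂ l₃ : ℕ} (p1 : l₁.Prime) (p2 : l₂.Prime) (p3 : l₃.Prime) (h12 : l₁ ≠ l₂)
    (h13 : l₁ ≠ l₃) (h23 : l₂ ≠ l₃) (u : ZMod l₁) (v : ZMod l₂) (w : ZMod l₃) :
    ∃ c : ℕ, 1 ≤ c ∧ c ≤ l₁ * l₂ * l₃ ∧ (c : ZMod l₁) = u ∧ (c : ZMod l₂) = v ∧
      (c : ZMod l₃) = w := by
  obtain ⟨c, -, -, hc1, hc2⟩ := crt ((Nat.coprime_primes p1 p2).2 h12) p1.pos p2.pos u v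
  have hco : Nat.Coprime (l₁ * l₂) l₃ :=
    Nat.Coprime.mul_left ((Nat.coprime_primes p1 p3).2 h13) ((Nat.coprime_primes p2 p3).2 h23)
  obtain ⟨e, he1, he2, he3, he4⟩ := crt hco (Nat.mul_pos p1.pos p2.pos) p3.pos
    ((c : ℕ) : ZMod (l₁ * l₂)) w
  have h := (ZMod.natCast_eq_natCast_iff e c (l₁ * l₂)).1 he3
  refine ⟨e, he1, he2, ?_, ?_, he4⟩
  · rw [← hc1]
    exact (ZMod.natCast_eq_natCast_iff e c l₁).2 (h.of_dvd (Dvd.intro _ rfl))
  · rw [← hc2]
    exact (ZMod.natCast_eq_natCast_iff e c l₂).2 (h.of_dvd (Dvd.intro_left _ rfl))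

theorem coeff_u {R : Type} [CommRing R] (k : ℕ) (q : R) (u v : Fin k → R) (b : R) (i : Fin k) :
    (hpoly k q u v b).coeff (2 * k + 1 - (i : ℕ)) = u i := by
  have hi := i.2
  unfold hpoly
  rw [coeff_add, coeff_add, coeff_add, finsetSum_coeff, coeff_X_pow,
    if_neg (by omega), coeff_C_mul, coeff_X_pow, if_neg (by omega), coeff_C, if_neg (by omega),
    Finset.sum_eq_single i]
  · rw [coeff_add, coeff_C_mul, coeff_C_mul, coeff_X_pow, coeff_X_pow, if_pos rfl,
      if_neg (by omega)]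
    ring
  · intro j _ hj
    have hj2 := j.2
    have hne : (j : ℕ) ≠ i := fun h => hj (Fin.ext h)
    rw [coeff_add, coeff_C_mul, coeff_C_mul, coeff_X_pow, coeff_X_pow, if_neg (by omega),
      if_neg (by omega)]
    ring
  · intro h
    exact absurd (Finset.mem_univ i) h

theorem coeff_b {R : Type} [CommRing R] (k : ℕ) (q : R) (u v : Fin k → R) (b : R) :
    (hpoly k q u v b).coeff (k + 1) = b := by
  unfold hpoly
  rw [coeff_add, coeff_add, coeff_add, finsetSum_coeff, coeff_X_pow,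
    if_neg (by omega), coeff_C_mul, coeff_X_pow, if_pos rfl, coeff_C, if_neg (by omega),
    Finset.sum_eq_zero]
  · ring
  · intro j _
    have hj2 := j.2
    rw [coeff_add, coeff_C_mul, coeff_C_mul, coeff_X_pow, coeff_X_pow, if_neg (by omega),
      if_neg (by omega)]
    ring

theorem al_one {k : ℕ} (x y : Fin k → ℤ) (j : Fin k) :
    al 1 x y j = (x j : ℂ) + (y j : ℂ) * Complex.I := by
  unfold al
  rw [Nat.cast_one, Real.sqrt_one, Complex.ofReal_one, one_mul]

theorem hC_inj (k q : ℕ) (x y x' y' : Fin k → ℤ) (b b' : ℤ)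
    (h : hC k q 1 x y b = hC k q 1 x' y' b') : x = x' ∧ y = y' ∧ b = b' := by
  have h1 : ∀ j, al 1 x y j = al 1 x' y' j := by
    intro j
    have := congrArg (fun f => f.coeff (2 * k + 1 - (j : ℕ))) h
    simp only [hC] at this
    rwa [coeff_u, coeff_u] at this
  have h2 : (b : ℂ) = (b' : ℂ) := by
    have := congrArg (fun f => f.coeff (k + 1)) h
    simp only [hC] at this
    rwa [coeff_b, coeff_b] at this
  refine ⟨funext fun j => ?_, funext fun j => ?_, by exact_mod_cast h2⟩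
  · have := congrArg Complex.re (h1 j)
    rw [al_one, al_one] at this
    simp at this
    exact this
  · have := congrArg Complex.im (h1 j)
    rw [al_one, al_one] at this
    simp at this
    exact this

theorem norm_al {k : ℕ} (x y : Fin k → ℤ) (j : Fin k) :
    ‖al 1 x y j‖ ≤ |(x j : ℝ)| + |(y j : ℝ)| := by
  rw [al_one]
  refine (norm_add_le _ _).trans ?_
  rw [norm_mul, Complex.norm_I, mul_one, Complex.norm_intCast, Complex.norm_intCast]

/-- the `b`-parameters -/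
def bb (p N b0 r : ℕ) : ℕ :=
  if p ∣ b0 + N * (2 * r) then b0 + N * (2 * r + 1) else b0 + N * (2 * r)

theorem bb_not_dvd (p N b0 r : ℕ) (hN : ¬ p ∣ N) : ¬ p ∣ bb p N b0 r := by
  unfold bb
  split_ifs with h
  · intro h2
    apply hN
    have : b0 + N * (2 * r + 1) = (b0 + N * (2 * r)) + N := by ring
    rw [this] at h2
    exact (Nat.dvd_add_right h).1 h2
  · exact h

theorem bb_le (p N b0 r : ℕ) : bb p N b0 r ≤ b0 + N * (2 * r + 1) := by
  unfold bb
  split_ifs with h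
  · exact le_rfl
  · nlinarith

theorem bb_inj (p N b0 r r' : ℕ) (hN : 0 < N) (h : bb p N b0 r = bb p N b0 r') : r = r' := by
  unfold bb at h
  split_ifs at h with h1 h2 h2
  · have := Nat.eq_of_mul_eq_mul_left hN (Nat.add_left_cancel h); omega
  · have := Nat.eq_of_mul_eq_mul_left hN (Nat.add_left_cancel h); omega
  · have := Nat.eq_of_mul_eq_mul_left hN (Nat.add_left_cancel h); omega
  · have := Nat.eq_of_mul_eq_mul_left hN (Nat.add_left_cancel h); omega

theorem bb_cast (p N b0 r l : ℕ) (hl : l ∣ N) : ((bb p N b0 r : ℕ) : ZMod l) = b0 := by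
  have h0 : (N : ZMod l) = 0 := (ZMod.natCast_eq_zero_iff N l).2 hl
  unfold bb
  split_ifs <;> push_cast <;> rw [h0] <;> ring

/-- the pattern `A` modulo a prime `≡ 1 mod 4` -/
theorem patA_ex (hA : W4A) (l : ℕ) [Fact l.Prime] (hl : 3 ≤ l) (k : ℕ) (hk : 1 ≤ k)
    (q s : ZMod l) (hq : q ≠ 0) (hs : s ^ 2 = -1) :
    ∃ (x y : Fin k → ZMod l) (b : ZMod l), s ≠ 0 ∧
      PatA k q (fun j => x j + s * y j) (fun j => x j - s * y j) b := by
  obtain ⟨u, v, b, h⟩ := hA l hl k hk q hq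
  have h2 : (2 : ZMod l) ≠ 0 := by
    intro h2
    have : ((2 : ℕ) : ZMod l) = 0 := by exact_mod_cast h2
    rw [ZMod.natCast_eq_zero_iff] at this
    exact absurd (Nat.le_of_dvd (by norm_num) this) (by omega)
  have hs0 : s ≠ 0 := by
    rintro rfl
    have : (1 : ZMod l) = 0 := by linear_combination hs
    exact one_ne_zero this
  refine ⟨fun j => (u j + v j) / 2, fun j => (u j - v j) / (2 * s), b, hs0, ?_⟩
  have e1 : (fun j => (u j + v j) / 2 + s * ((u j - v j) / (2 * s))) = u := by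
    funext j
    field_simp
    ring
  have e2 : (fun j => (u j + v j) / 2 - s * ((u j - v j) / (2 * s))) = v := by
    funext j
    field_simp
    ring
  rw [e1, e2]
  exact h

/-- the pattern `C` modulo a prime `≡ 1 mod 4` -/
theorem patC_ex (hC : B9a) (l : ℕ) [Fact l.Prime] (hl : 3 ≤ l) (k : ℕ) (hk : 2 ≤ k)
    (q s : ZMod l) (hq : q ≠ 0) (hs : s ^ 2 = -1) :
    ∃ (x y : Fin k → ZMod l) (b : ZMod l), s ≠ 0 ∧
      PatC k q (fun j => x j + s * y j) (fun j => x j - s * y j) b := by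
  obtain ⟨u, v, b, h⟩ := hC l hl k hk q hq
  have h2 : (2 : ZMod l) ≠ 0 := by
    intro h2
    have : ((2 : ℕ) : ZMod l) = 0 := by exact_mod_cast h2
    rw [ZMod.natCast_eq_zero_iff] at this
    exact absurd (Nat.le_of_dvd (by norm_num) this) (by omega)
  have hs0 : s ≠ 0 := by
    rintro rfl
    have : (1 : ZMod l) = 0 := by linear_combination hs
    exact one_ne_zero this
  refine ⟨fun j => (u j + v j) / 2, fun j => (u j - v j) / (2 * s), b, hs0, ?_⟩
  have e1 : (fun j => (u j + v j) / 2 + s * ((u j - v j) / (2 * s))) = u := by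
    funext j
    field_simp
    ring
  have e2 : (fun j => (u j + v j) / 2 - s * ((u j - v j) / (2 * s))) = v := by
    funext j
    field_simp
    ring
  rw [e1, e2]
  exact h

/-- the choice of the primes -/
theorem primes_ex (p : ℕ) : ∃ (l1 l2 l3 : ℕ) (s1 : ZMod l1) (s2 : ZMod l2) (s3 : ZMod l3),
    s1 ^ 2 = -1 ∧ s2 ^ 2 = -1 ∧ s3 ^ 2 = -1 ∧ l1.Prime ∧ l2.Prime ∧ l3.Prime ∧ 3 ≤ l1 ∧ 3 ≤ l2 ∧
    3 ≤ l3 ∧ l1 ≠ l2 ∧ l1 ≠ l3 ∧ l2 ≠ l3 ∧ l1 ≠ p ∧ l2 ≠ p ∧ l3 ≠ p ∧ l1 * l2 * l3 ≤ 6409 := by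
  by_cases h5 : p = 5
  · exact ⟨13, 17, 29, 5, 4, 12, by decide, by decide, by decide, by norm_num, by norm_num,
      by norm_num, by norm_num, by norm_num, by norm_num, by norm_num, by norm_num, by norm_num,
      by omega, by omega, by omega, by norm_num⟩
  by_cases h13 : p = 13
  · exact ⟨5, 17, 29, 2, 4, 12, by decide, by decide, by decide, by norm_num, by norm_num,
      by norm_num, by norm_num, by norm_num, by norm_num, by norm_num, by norm_num, by norm_num,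
      by omega, by omega, by omega, by norm_num⟩
  by_cases h17 : p = 17
  · exact ⟨5, 13, 29, 2, 5, 12, by decide, by decide, by decide, by norm_num, by norm_num,
      by norm_num, by norm_num, by norm_num, by norm_num, by norm_num, by norm_num, by norm_num,
      by omega, by omega, by omega, by norm_num⟩
  · exact ⟨5, 13, 17, 2, 5, 4, by decide, by decide, by decide, by norm_num, by norm_num,
      by norm_num, by norm_num, by norm_num, by norm_num, by norm_num, by norm_num, by norm_num,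
      by omega, by omega, by omega, by norm_num⟩

/-- the case `k >= 3` -/
theorem big (hA : W4A) (hB : W4B) (hCa : B9a) (k : ℕ) (hk : 3 ≤ k) : ManyC k := by
  classical
  obtain ⟨M, hM⟩ : ∃ M : ℝ, M = 25636 * ((k : ℝ) + 1) := ⟨_, rfl⟩
  have hk0 : (0 : ℝ) ≤ k := Nat.cast_nonneg k
  have hM1 : 25636 ≤ M := by rw [hM]; linarith
  refine ⟨(2 * M) ^ (2 * k + 1), by positivity, ?_⟩
  intro p hp a ha hC
  have hpp : p.Prime := Fact.out
  obtain ⟨l1, l2, l3, s1, s2, s3, hs1, hs2, hs3, g1, g2, g3, hl1, hl2, hl3, hne12, hne13, hne23,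
    hn1, hn2, hn3, hle⟩ := primes_ex p
  have f1 : Fact l1.Prime := ⟨g1⟩
  have f2 : Fact l2.Prime := ⟨g2⟩
  have f3 : Fact l3.Prime := ⟨g3⟩
  have hq1 : (((p ^ a : ℕ) : ZMod l1)) ≠ 0 := by
    rw [Ne, ZMod.natCast_eq_zero_iff]
    intro h
    exact hn1 ((Nat.prime_dvd_prime_iff_eq f1.out hpp).1 (f1.out.dvd_of_dvd_pow h))
  have hq2 : (((p ^ a : ℕ) : ZMod l2)) ≠ 0 := by
    rw [Ne, ZMod.natCast_eq_zero_iff]
    intro h
    exact hn2 ((Nat.prime_dvd_prime_iff_eq f2.out hpp).1 (f2.out.dvd_of_dvd_pow h))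
  have hq3 : (((p ^ a : ℕ) : ZMod l3)) ≠ 0 := by
    rw [Ne, ZMod.natCast_eq_zero_iff]
    intro h
    exact hn3 ((Nat.prime_dvd_prime_iff_eq f3.out hpp).1 (f3.out.dvd_of_dvd_pow h))
  obtain ⟨xC, yC, bC, hsC, hPC⟩ := patC_ex hCa l3 hl3 k (by omega) _ s3 hq3 hs3
  obtain ⟨xA, yA, bA, hsA, hPA⟩ := patA_ex hA l1 hl1 k (by omega) _ s1 hq1 hs1
  have hsB : s2 ≠ 0 := by
    rintro rfl
    have : (1 : ZMod l2) = 0 := by linear_combination hs2
    exact one_ne_zero this
  obtain ⟨bB, hPB⟩ := hB l2 k _ hq2 (fun _ => 0) (fun _ => 0)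
  set N := l1 * l2 * l3 with hN
  have hN0 : 0 < N := Nat.mul_pos (Nat.mul_pos f1.out.pos f2.out.pos) f3.out.pos
  have hpN : ¬ p ∣ N := by
    intro h
    rcases (hpp.dvd_mul).1 h with h | h
    · rcases (hpp.dvd_mul).1 h with h | h
      · exact hn1 ((Nat.prime_dvd_prime_iff_eq hpp f1.out).1 h).symm
      · exact hn2 ((Nat.prime_dvd_prime_iff_eq hpp f2.out).1 h).symm
    · exact hn3 ((Nat.prime_dvd_prime_iff_eq hpp f3.out).1 h).symm
  choose x0 _ hx0 hx1 hx2 hx3 using fun j =>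
    crt3 g1 g2 g3 hne12 hne13 hne23 (xA j) (0 : ZMod l2) (xC j)
  choose y0 _ hy0 hy1 hy2 hy3 using fun j =>
    crt3 g1 g2 g3 hne12 hne13 hne23 (yA j) (0 : ZMod l2) (yC j)
  obtain ⟨b0, -, hb0, hb1, hb2, hb3⟩ := crt3 g1 g2 g3 hne12 hne13 hne23 bA bB bC
  -- sizes
  obtain ⟨Q, hQ⟩ : ∃ Q : ℝ, Q = Real.sqrt ((p : ℝ) ^ a) := ⟨_, rfl⟩
  have hQM : M ≤ Q := by
    rw [hQ]
    apply Real.le_sqrt_of_sq_le
    refine le_trans ?_ hC.le
    calc M ^ 2 ≤ (2 * M) ^ 2 := by nlinarith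
      _ ≤ (2 * M) ^ (2 * k + 1) := pow_le_pow_right₀ (by linarith) (by omega)
  have hQ1 : 1 ≤ Q := by linarith
  have hMpos : 0 < M := by linarith
  have hQi : ∀ i : ℕ, M ≤ Q ^ (i + 1) := fun i =>
    hQM.trans (by simpa using pow_le_pow_right₀ hQ1 (show 1 ≤ i + 1 by omega))
  let T : ℕ → ℕ := fun i => ⌊Q ^ (i + 1) / M⌋₊
  have hT1 : ∀ i, Q ^ (i + 1) ≤ 2 * M * T i := by
    intro i
    have h1 : 1 ≤ Q ^ (i + 1) / M := (one_le_div hMpos).2 (hQi i)
    have h2 : Q ^ (i + 1) / M < (T i : ℝ) + 1 := Nat.lt_floor_add_one _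
    have h3 : (1 : ℝ) ≤ T i := by
      have : 1 ≤ T i := Nat.le_floor (by simpa using h1)
      exact_mod_cast this
    rw [div_lt_iff₀ hMpos] at h2
    nlinarith
  have hT2 : ∀ i (t : ℕ), t < T i → ((k : ℝ) + 1) * (12818 * (t + 1)) ≤ Q ^ (i + 1) := by
    intro i t ht
    have h1 : (T i : ℝ) ≤ Q ^ (i + 1) / M := Nat.floor_le (by positivity)
    rw [le_div_iff₀ hMpos, hM] at h1
    have h2 : (t : ℝ) + 1 ≤ T i := by exact_mod_cast ht
    have h3 : 0 ≤ (T i : ℝ) * (12818 * ((k : ℝ) + 1)) := by positivity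
    nlinarith
  -- the parameters
  let F : (Fin k → ℕ) × (Fin k → ℕ) × ℕ → ℕ × (Fin k → ℤ) × (Fin k → ℤ) × ℤ := fun t =>
    (1, (fun j => ((x0 j + N * t.1 j : ℕ) : ℤ)), (fun j => ((y0 j + N * t.2.1 j : ℕ) : ℤ)),
      ((bb p N b0 t.2.2 : ℕ) : ℤ))
  have hF : Function.Injective F := by
    rintro ⟨t, t', r⟩ ⟨u, u', v⟩ h
    simp only [F, Prod.mk.injEq, true_and] at h
    obtain ⟨h1, h2, h3⟩ := h
    have e1 : t = u := by
      funext j
      have := congrFun h1 j
      simp only [Nat.cast_inj] at this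
      exact Nat.eq_of_mul_eq_mul_left hN0 (Nat.add_left_cancel this)
    have e2 : t' = u' := by
      funext j
      have := congrFun h2 j
      simp only [Nat.cast_inj] at this
      exact Nat.eq_of_mul_eq_mul_left hN0 (Nat.add_left_cancel this)
    have e3 : r = v := bb_inj p N b0 r v hN0 (by exact_mod_cast h3)
    rw [e1, e2, e3]
  let J : Finset ((Fin k → ℕ) × (Fin k → ℕ) × ℕ) :=
    (Fintype.piFinset fun j : Fin k => Finset.range (T j)) ×ˢ
      (Fintype.piFinset fun j : Fin k => Finset.range (T j)) ×ˢ Finset.range (T k)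
  have hJ : (J.card : ℝ) = (∏ j : Fin k, (T j : ℝ)) * ((∏ j : Fin k, (T j : ℝ)) * T k) := by
    simp only [J, Finset.card_product, Fintype.card_piFinset, Finset.card_range]
    push_cast
    rfl
  refine ⟨J.image F, ?_, ?_, ?_⟩
  · -- the number of the parameters
    rw [Finset.card_image_of_injective _ hF, hJ, ← hQ]
    have ho : order (k + 1) = (k + 1) ^ 2 := by
      unfold order
      rw [if_neg (by omega), if_neg (by omega)]
    rw [ho]
    have h1 : (∏ j : Fin k, Q ^ ((j : ℕ) + 1)) ≤ (2 * M) ^ k * ∏ j : Fin k, (T j : ℝ) := by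
      calc (∏ j : Fin k, Q ^ ((j : ℕ) + 1)) ≤ ∏ j : Fin k, (2 * M * T j) :=
            Finset.prod_le_prod (fun _ _ => by positivity) fun j _ => hT1 j
        _ = _ := by
            rw [Finset.prod_mul_distrib, Finset.prod_const, Finset.card_univ, Fintype.card_fin]
    have h2 : (∏ j : Fin k, Q ^ ((j : ℕ) + 1)) ^ 2 = Q ^ (k * (k + 1)) := by
      rw [Finset.prod_pow_eq_pow_sum, ← pow_mul, Fin.sum_univ_eq_sum_range (fun j => j + 1) k]
      congr 1
      have := Finset.sum_range_succ' (fun i => i) k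
      have h3 := Finset.sum_range_id_mul_two (k + 1)
      rw [this] at h3
      simpa [mul_comm] using h3
    have h3 : (0 : ℝ) ≤ ∏ j : Fin k, Q ^ ((j : ℕ) + 1) :=
      Finset.prod_nonneg fun _ _ => by positivity
    calc Q ^ (k + 1) ^ 2 = (∏ j : Fin k, Q ^ ((j : ℕ) + 1)) ^ 2 * Q ^ (k + 1) := by
          rw [h2, ← pow_add]; congr 1; ring
      _ ≤ ((2 * M) ^ k * ∏ j : Fin k, (T j : ℝ)) ^ 2 * (2 * M * T k) :=
          mul_le_mul (pow_le_pow_left₀ h3 h1 2) (hT1 k) (by positivity) (by positivity)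
      _ = _ := by ring
  · -- the properties of the parameters
    intro t ht
    obtain ⟨⟨t1, t2, r⟩, hm, rfl⟩ := Finset.mem_image.1 ht
    simp only [J, Finset.mem_product, Fintype.mem_piFinset, Finset.mem_range] at hm
    obtain ⟨m1, m2, m3⟩ := hm
    have hN6409 : (N : ℝ) ≤ 6409 := by exact_mod_cast hle
    have hbnd : ∀ (c t : ℕ), c ≤ N → ((c + N * t : ℕ) : ℝ) ≤ 6409 * (t + 1) := by
      intro c t hc
      have h1 : (c : ℝ) ≤ N := by exact_mod_cast hc
      push_cast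
      have h2 : (0 : ℝ) ≤ t := Nat.cast_nonneg t
      nlinarith
    have dA : l1 ∣ N := by rw [hN, mul_assoc]; exact Dvd.intro _ rfl
    have dB : l2 ∣ N := by rw [hN, mul_comm l1 l2, mul_assoc]; exact Dvd.intro _ rfl
    have dC : l3 ∣ N := Dvd.intro_left _ rfl
    have hcA : ((N : ℕ) : ZMod l1) = 0 := (ZMod.natCast_eq_zero_iff _ _).2 dA
    have hcB : ((N : ℕ) : ZMod l2) = 0 := (ZMod.natCast_eq_zero_iff _ _).2 dB
    have hcC : ((N : ℕ) : ZMod l3) = 0 := (ZMod.natCast_eq_zero_iff _ _).2 dC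
    have hQ' : Real.sqrt ((p ^ a : ℕ) : ℝ) = Q := by rw [hQ, Nat.cast_pow]
    refine ⟨Nat.one_pos, ⟨fun j => ?_, ?_⟩, ?_, ?_, ?_, ?_⟩
    · rw [hQ']
      refine le_trans ?_ (hT2 j (max (t1 j) (t2 j)) (max_lt (m1 j) (m2 j)))
      refine mul_le_mul_of_nonneg_left ?_ (by positivity)
      refine (norm_al _ _ j).trans ?_
      simp only [F]
      rw [Int.cast_natCast, Int.cast_natCast, Nat.abs_cast, Nat.abs_cast]
      have h1 := hbnd _ (t1 j) (hx0 j)
      have h2 := hbnd _ (t2 j) (hy0 j)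
      have h3 : (t1 j : ℝ) ≤ (max (t1 j) (t2 j) : ℕ) := by exact_mod_cast le_max_left _ _
      have h4 : (t2 j : ℝ) ≤ (max (t1 j) (t2 j) : ℕ) := by exact_mod_cast le_max_right _ _
      linarith
    · rw [hQ']
      refine le_trans ?_ (hT2 k r m3)
      refine mul_le_mul_of_nonneg_left ?_ (by positivity)
      simp only [F]
      rw [Int.cast_natCast, Nat.abs_cast]
      have h1 : ((bb p N b0 r : ℕ) : ℝ) ≤ ((b0 + N * (2 * r + 1) : ℕ) : ℝ) := by
        exact_mod_cast bb_le p N b0 r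
      have h2 := hbnd _ (2 * r + 1) hb0
      push_cast at h2 h1
      linarith
    · simp only [F]
      rw [Int.natCast_dvd_natCast]
      exact bb_not_dvd p N b0 r hpN
    · refine ⟨l1, f1, s1, by omega, hq1, hsA, by rw [hs1]; simp [F], ?_⟩
      have e1 : ∀ j, (((F (t1, t2, r)).2.1 j : ℤ) : ZMod l1) = xA j := by
        intro j
        simp only [F]
        rw [Int.cast_natCast]
        push_cast
        rw [hcA, hx1]; ring
      have e2 : ∀ j, (((F (t1, t2, r)).2.2.1 j : ℤ) : ZMod l1) = yA j := by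
        intro j
        simp only [F]
        rw [Int.cast_natCast]
        push_cast
        rw [hcA, hy1]; ring
      have e3 : (((F (t1, t2, r)).2.2.2 : ℤ) : ZMod l1) = bA := by
        simp only [F]
        rw [Int.cast_natCast, bb_cast p N b0 r l1 dA, hb1]
      simp only [e1, e2, e3]
      exact hPA
    · refine ⟨l2, f2, s2, by omega, hq2, hsB, by rw [hs2]; simp [F], ?_⟩
      have e1 : ∀ j, (((F (t1, t2, r)).2.1 j : ℤ) : ZMod l2) = 0 := by
        intro j
        simp only [F]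
        rw [Int.cast_natCast]
        push_cast
        rw [hcB, hx2]; ring
      have e2 : ∀ j, (((F (t1, t2, r)).2.2.1 j : ℤ) : ZMod l2) = 0 := by
        intro j
        simp only [F]
        rw [Int.cast_natCast]
        push_cast
        rw [hcB, hy2]; ring
      have e3 : (((F (t1, t2, r)).2.2.2 : ℤ) : ZMod l2) = bB := by
        simp only [F]
        rw [Int.cast_natCast, bb_cast p N b0 r l2 dB, hb2]
      simp only [e1, e2, e3, mul_zero, add_zero, sub_zero]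
      exact hPB
    · refine ⟨l3, f3, s3, by omega, hq3, hsC, by rw [hs3]; simp [F], ?_⟩
      have e1 : ∀ j, (((F (t1, t2, r)).2.1 j : ℤ) : ZMod l3) = xC j := by
        intro j
        simp only [F]
        rw [Int.cast_natCast]
        push_cast
        rw [hcC, hx3]; ring
      have e2 : ∀ j, (((F (t1, t2, r)).2.2.1 j : ℤ) : ZMod l3) = yC j := by
        intro j
        simp only [F]
        rw [Int.cast_natCast]
        push_cast
        rw [hcC, hy3]; ring
      have e3 : (((F (t1, t2, r)).2.2.2 : ℤ) : ZMod l3) = bC := by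
        simp only [F]
        rw [Int.cast_natCast, bb_cast p N b0 r l3 dC, hb3]
      simp only [e1, e2, e3]
      exact hPC
  · -- injectivity
    intro t ht t' ht' h
    obtain ⟨u, _, rfl⟩ := Finset.mem_image.1 (Finset.mem_coe.1 ht)
    obtain ⟨u', _, rfl⟩ := Finset.mem_image.1 (Finset.mem_coe.1 ht')
    obtain ⟨h1, h2, h3⟩ := hC_inj k (p ^ a) _ _ _ _ _ _ h
    exact Prod.ext rfl (Prod.ext h1 (Prod.ext h2 h3))

theorem choose_primes (p : ℕ) : ∃ lA lB lC : ℕ, lA.Prime ∧ lB.Prime ∧ lC.Prime ∧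
    (lA = 3 ∨ lA = 5) ∧ (lC = 7 ∨ lC = 11) ∧ lA ≠ 2 ∧ lB ≠ 2 ∧ lC ≠ 2 ∧ lA ≠ lB ∧ lA ≠ lC ∧
    lB ≠ lC ∧ lA ≠ p ∧ lB ≠ p ∧ lC ≠ p ∧ lA * lB * lC ≤ 455 := by
  by_cases h3 : p = 3
  · exact ⟨5, 13, 7, by norm_num, by norm_num, by norm_num, Or.inr rfl, Or.inl rfl, by norm_num,
      by norm_num, by norm_num, by norm_num, by norm_num, by norm_num, by omega, by omega,
      by omega, by norm_num⟩
  by_cases h7 : p = 7
  · exact ⟨3, 13, 11, by norm_num, by norm_num, by norm_num, Or.inl rfl, Or.inr rfl, by norm_num,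
      by norm_num, by norm_num, by norm_num, by norm_num, by norm_num, by omega, by omega,
      by omega, by norm_num⟩
  by_cases h13 : p = 13
  · exact ⟨3, 17, 7, by norm_num, by norm_num, by norm_num, Or.inl rfl, Or.inl rfl, by norm_num,
      by norm_num, by norm_num, by norm_num, by norm_num, by norm_num, by omega, by omega,
      by omega, by norm_num⟩
  · exact ⟨3, 13, 7, by norm_num, by norm_num, by norm_num, Or.inl rfl, Or.inl rfl, by norm_num,
      by norm_num, by norm_num, by norm_num, by norm_num, by norm_num, by omega, by omega,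
      by omega, by norm_num⟩

theorem cast_ne {p l : ℕ} (hp : p.Prime) (hl : l.Prime) (h : l ≠ p) (a : ℕ) :
    ((p ^ a : ℕ) : ZMod l) ≠ 0 := by
  have : Fact l.Prime := ⟨hl⟩
  rw [Nat.cast_pow]
  refine pow_ne_zero _ fun h0 => ?_
  rw [ZMod.natCast_eq_zero_iff] at h0
  exact h ((Nat.prime_dvd_prime_iff_eq hl hp).1 h0)

theorem coeff1 (q : ℂ) (u v : Fin 1 → ℂ) (b : ℂ) :
    (hpoly 1 q u v b).coeff 3 = u 0 ∧ (hpoly 1 q u v b).coeff 2 = b := by
  unfold hpoly
  rw [Fin.sum_univ_one]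
  constructor
  · simp only [coeff_add, coeff_C_mul, coeff_X_pow, coeff_C, Fin.val_zero]
    norm_num
  · simp only [coeff_add, coeff_C_mul, coeff_X_pow, coeff_C, Fin.val_zero]
    norm_num

theorem coeff2 (q : ℂ) (u v : Fin 2 → ℂ) (b : ℂ) : (hpoly 2 q u v b).coeff 5 = u 0 ∧
    (hpoly 2 q u v b).coeff 4 = u 1 ∧ (hpoly 2 q u v b).coeff 3 = b := by
  unfold hpoly
  rw [Fin.sum_univ_two]
  refine ⟨?_, ?_, ?_⟩
  · simp only [coeff_add, coeff_C_mul, coeff_X_pow, coeff_C, Fin.val_zero, Fin.val_one]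
    norm_num
  · simp only [coeff_add, coeff_C_mul, coeff_X_pow, coeff_C, Fin.val_zero, Fin.val_one]
    norm_num
  · simp only [coeff_add, coeff_C_mul, coeff_X_pow, coeff_C, Fin.val_zero, Fin.val_one]
    norm_num

/-- the coefficients determine the parameters -/
theorem inj_hC {k : ℕ} (hk : k = 1 ∨ k = 2) {q d d' : ℕ} {x x' y : Fin k → ℤ} {b b' : ℤ}
    (hy : ∀ j : Fin k, (j : ℕ) + 1 = k → y j = 1)
    (h : hC k q d x y b = hC k q d' x' y b') : d = d' ∧ x = x' ∧ b = b' := by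
  have key : (∀ j, al d x y j = al d' x' y j) ∧ (b : ℂ) = b' := by
    unfold hC at h
    rcases hk with rfl | rfl
    · have c3 := congrArg (fun P : ℂ[X] => P.coeff 3) h
      have c2 := congrArg (fun P : ℂ[X] => P.coeff 2) h
      simp only [(coeff1 _ _ _ _).1, (coeff1 _ _ _ _).2] at c3 c2
      refine ⟨fun j => ?_, c2⟩
      fin_cases j
      exact c3
    · have c5 := congrArg (fun P : ℂ[X] => P.coeff 5) h
      have c4 := congrArg (fun P : ℂ[X] => P.coeff 4) h
      have c3 := congrArg (fun P : ℂ[X] => P.coeff 3) h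
      simp only [(coeff2 _ _ _ _).1, (coeff2 _ _ _ _).2.1, (coeff2 _ _ _ _).2.2] at c5 c4 c3
      refine ⟨fun j => ?_, c3⟩
      fin_cases j
      · exact c5
      · exact c4
  obtain ⟨h1, h2⟩ := key
  have hre : ∀ j, x j = x' j := by
    intro j
    have h3 := congrArg Complex.re (h1 j)
    unfold al at h3
    simp at h3
    exact_mod_cast h3
  have hk0 : 0 < k := by rcases hk with rfl | rfl <;> norm_num
  have him := congrArg Complex.im (h1 ⟨k - 1, by omega⟩)
  unfold al at him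
  rw [hy ⟨k - 1, by omega⟩ (by show k - 1 + 1 = k; omega)] at him
  simp at him
  have hd : (d : ℝ) = d' := by
    have e1 := Real.sq_sqrt (Nat.cast_nonneg d : (0 : ℝ) ≤ d)
    have e2 := Real.sq_sqrt (Nat.cast_nonneg d' : (0 : ℝ) ≤ d')
    rw [← e1, ← e2, him]
  exact ⟨by exact_mod_cast hd, funext hre, by exact_mod_cast h2⟩

theorem fl {t : ℝ} (ht : 1 ≤ t) : t / 2 ≤ (⌊t⌋₊ : ℝ) := by
  have h1 : 1 ≤ ⌊t⌋₊ := Nat.le_floor (by simpa using ht)
  have h2 := Nat.lt_floor_add_one t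
  have h3 : (1 : ℝ) ≤ ⌊t⌋₊ := by exact_mod_cast h1
  linarith

/-- the case `k = 2` -/
theorem small (hS : W4S) (hB : W4B) (hCb : B9b) (k : ℕ) (hkk : k = 2) : ManyC k := by
  classical
  have hk : k = 1 ∨ k = 2 := Or.inr hkk
  have hk1 : 1 ≤ k := by omega
  have hk2 : k ≤ 2 := by omega
  refine ⟨(65520 : ℝ) ^ 4, by norm_num, ?_⟩
  intro p hpf a ha hC0
  have hp := hpf.out
  obtain ⟨lA, lB, lC, hlA, hlB, hlC, hlA35, hlC7, hlA2, hlB2, hlC2, hne1, hne2, hne3, hAp, hBp,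
    hCp, hN35⟩ := choose_primes p
  have : Fact lA.Prime := ⟨hlA⟩
  have : Fact lB.Prime := ⟨hlB⟩
  have : Fact lC.Prime := ⟨hlC⟩
  have hqA := cast_ne hp hlA hAp a
  have hqB := cast_ne hp hlB hBp a
  have hqC := cast_ne hp hlC hCp a
  obtain ⟨sA, xA, bA, hsA, hPA⟩ := hS k hk lA hlA35 _ hqA
  obtain ⟨sC, xC, bC, hsC, hPC⟩ : ∃ (s : ZMod lC) (x : Fin k → ZMod lC) (b : ZMod lC), s ≠ 0 ∧
      PatC k ((p ^ a : ℕ) : ZMod lC) (fun j => x j + s * (if (j : ℕ) + 1 = k then 1 else 0))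
        (fun j => x j - s * (if (j : ℕ) + 1 = k then 1 else 0)) b := by
    subst hkk
    exact hCb lC hlC7 _ hqC
  obtain ⟨y, hy⟩ : ∃ y : Fin k → ℤ,
      y = (fun j : Fin k => if (j : ℕ) + 1 = k then (1 : ℤ) else 0) :=
    ⟨_, rfl⟩
  have hy1 : ∀ j : Fin k, (j : ℕ) + 1 = k → y j = 1 := fun j hj => by rw [hy]; exact if_pos hj
  have hy0 : ∀ j : Fin k, (j : ℕ) + 1 ≠ k → y j = 0 := fun j hj => by rw [hy]; exact if_neg hj
  obtain ⟨bB, hPB⟩ := hB lB k _ hqB (fun j => ((0 : ZMod lB)) + 1 * (y j : ZMod lB))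
    (fun j => ((0 : ZMod lB)) - 1 * (y j : ZMod lB))
  obtain ⟨d₀, hd1, hd2, hdA, hdB, hdC⟩ :=
    crt3 hlA hlB hlC hne1 hne2 hne3 (-(sA ^ 2)) (-1) (-(sC ^ 2))
  choose x₀ hx1 hx2 hxA hxB hxC using fun j : Fin k =>
    crt3 hlA hlB hlC hne1 hne2 hne3 (xA j) (0 : ZMod lB) (xC j)
  obtain ⟨b₀, hb1, hb2, hbA, hbB, hbC⟩ := crt3 hlA hlB hlC hne1 hne2 hne3 bA bB bC
  obtain ⟨N, hN⟩ : ∃ N : ℕ, N = lA * lB * lC := ⟨_, rfl⟩
  rw [← hN] at hd2 hb2 hN35
  have hx2' : ∀ j, x₀ j ≤ N := fun j => by rw [hN]; exact hx2 j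
  have hN0 : 0 < N := by rw [hN]; exact Nat.mul_pos (Nat.mul_pos hlA.pos hlB.pos) hlC.pos
  have hNA : (N : ZMod lA) = 0 := by
    rw [hN, Nat.cast_mul, Nat.cast_mul, ZMod.natCast_self, zero_mul, zero_mul]
  have hNB : (N : ZMod lB) = 0 := by
    rw [hN, Nat.cast_mul, Nat.cast_mul, ZMod.natCast_self, mul_zero, zero_mul]
  have hNC : (N : ZMod lC) = 0 := by rw [hN, Nat.cast_mul, ZMod.natCast_self, mul_zero]
  have hpN : ¬ ((p : ℤ) ∣ (N : ℤ)) := by
    intro h
    have h1 : p ∣ lA * lB * lC := by rw [← hN]; exact_mod_cast h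
    rcases (Nat.Prime.dvd_mul hp).1 h1 with h2 | h2
    · rcases (Nat.Prime.dvd_mul hp).1 h2 with h2 | h2
      · exact hAp ((Nat.prime_dvd_prime_iff_eq hp hlA).1 h2).symm
      · exact hBp ((Nat.prime_dvd_prime_iff_eq hp hlB).1 h2).symm
    · exact hCp ((Nat.prime_dvd_prime_iff_eq hp hlC).1 h2).symm
  -- the values of `b`
  obtain ⟨ε, hε⟩ : ∃ ε : ℕ → ℕ, ε = (fun m : ℕ =>
    if (p : ℤ) ∣ ((b₀ : ℤ) + N * (2 * m)) then 1 else 0) := ⟨_, rfl⟩
  have hε1 : ∀ m, ε m ≤ 1 := fun m => by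
    rw [hε]
    simp only []
    split_ifs <;> norm_num
  obtain ⟨g, hg⟩ : ∃ g : ℕ → ℕ, g = (fun m : ℕ => b₀ + N * (2 * m + ε m)) := ⟨_, rfl⟩
  have hgp : ∀ m, ¬ ((p : ℤ) ∣ (g m : ℤ)) := by
    intro m hm
    have e1 : (g m : ℤ) = (b₀ : ℤ) + N * (2 * m) + N * ε m := by
      rw [hg]
      push_cast
      ring
    rw [e1] at hm
    by_cases h : (p : ℤ) ∣ ((b₀ : ℤ) + N * (2 * m))
    · have e2 : ε m = 1 := by rw [hε]; exact if_pos h
      rw [e2, Nat.cast_one, mul_one] at hm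
      exact hpN ((Int.dvd_add_right h).1 hm)
    · have e2 : ε m = 0 := by rw [hε]; exact if_neg h
      rw [e2, Nat.cast_zero, mul_zero, add_zero] at hm
      exact h hm
  have hginj : ∀ m m', g m = g m' → m = m' := by
    intro m m' h
    rw [hg] at h
    simp only [] at h
    have h2 : 2 * m + ε m = 2 * m' + ε m' := Nat.eq_of_mul_eq_mul_left hN0 (by omega)
    have := hε1 m
    have := hε1 m'
    omega
  have hgN : ∀ m M, m < M → g m ≤ 2 * N * M := by
    intro m M hm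
    have h1 : g m ≤ N + N * (2 * m + 1) := by
      rw [hg]
      exact Nat.add_le_add hb2 (Nat.mul_le_mul_left _ (by have := hε1 m; omega))
    have h2 : N + N * (2 * m + 1) = 2 * N * (m + 1) := by ring
    have h3 : 2 * N * (m + 1) ≤ 2 * N * M := Nat.mul_le_mul_left _ hm
    omega
  -- the square root
  obtain ⟨r, hr⟩ : ∃ r : ℝ, r = Real.sqrt ((p : ℝ) ^ a) := ⟨_, rfl⟩
  have hr0 : 0 ≤ r := by rw [hr]; exact Real.sqrt_nonneg _
  have hrq : Real.sqrt ((p ^ a : ℕ) : ℝ) = r := by rw [hr]; push_cast; rfl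
  have hrK : 32760 ≤ r := by
    rw [hr]
    apply Real.le_sqrt_of_sq_le
    have : (32760 : ℝ) ^ 2 ≤ 65520 ^ 4 := by norm_num
    linarith
  have hpow : ∀ e : ℕ, 1 ≤ e → 32760 ≤ r ^ e := by
    intro e he
    calc (32760 : ℝ) ≤ r := hrK
      _ = r ^ 1 := (pow_one r).symm
      _ ≤ r ^ e := pow_le_pow_right₀ (by linarith) he
  obtain ⟨M, hM⟩ : ∃ M : ℕ → ℕ, M = (fun e : ℕ => ⌊r ^ e / 32760⌋₊) := ⟨_, rfl⟩
  have hMle : ∀ e, (M e : ℝ) ≤ r ^ e / 32760 := fun e => by
    rw [hM]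
    exact Nat.floor_le (by positivity)
  have hMge : ∀ e, 1 ≤ e → r ^ e / 65520 ≤ (M e : ℝ) := fun e he => by
    rw [hM]
    have h1 : (1 : ℝ) ≤ r ^ e / 32760 := by
      rw [le_div_iff₀ (by norm_num)]
      linarith [hpow e he]
    have h2 := fl h1
    have h3 : r ^ e / 32760 / 2 = r ^ e / 65520 := by ring
    rw [h3] at h2
    exact h2
  have hNM : ∀ e, (N : ℝ) * M e ≤ r ^ e / 72 := fun e => by
    have h1 : (N : ℝ) ≤ 455 := by exact_mod_cast hN35
    calc (N : ℝ) * M e ≤ 455 * (r ^ e / 32760) :=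
          mul_le_mul h1 (hMle e) (Nat.cast_nonneg _) (by norm_num)
      _ = r ^ e / 72 := by ring
  -- the parameters
  obtain ⟨φ, hφ⟩ : ∃ φ : ℕ × (Fin k → ℕ) × ℕ → ℕ × (Fin k → ℤ) × (Fin k → ℤ) × ℤ,
      φ = (fun t : ℕ × (Fin k → ℕ) × ℕ =>
        (d₀ + N * t.1, fun j => ((x₀ j + N * t.2.1 j : ℕ) : ℤ), y, (g t.2.2 : ℤ))) := ⟨_, rfl⟩
  obtain ⟨S₀, hS₀⟩ : ∃ S₀ : Finset (ℕ × (Fin k → ℕ) × ℕ), S₀ = Finset.range (M (2 * k)) ×ˢ
      (Fintype.piFinset (fun j : Fin k => Finset.range (M ((j : ℕ) + 1))) ×ˢ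
        Finset.range (M (k + 1))) := ⟨_, rfl⟩
  have hφinj : Function.Injective φ := by
    rintro ⟨m1, m2, m3⟩ ⟨m1', m2', m3'⟩ h
    rw [hφ] at h
    simp only [Prod.mk.injEq, true_and] at h
    obtain ⟨e1, e2, e3⟩ := h
    have f1 : m1 = m1' := Nat.eq_of_mul_eq_mul_left hN0 (by omega)
    have f2 : m2 = m2' := by
      funext j
      have e4 := congrFun e2 j
      have e5 : x₀ j + N * m2 j = x₀ j + N * m2' j := by exact_mod_cast e4
      exact Nat.eq_of_mul_eq_mul_left hN0 (by omega)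
    have f3 : m3 = m3' := hginj _ _ (by exact_mod_cast e3)
    rw [f1, f2, f3]
  refine ⟨S₀.image φ, ?_, ?_, ?_⟩
  · rw [Finset.card_image_of_injective _ hφinj, hS₀, Finset.card_product, Finset.card_product,
      Fintype.card_piFinset, Finset.card_range, Finset.card_range]
    simp only [Finset.card_range]
    rw [← hr]
    subst hkk
    · have o : order (2 + 1) = 10 := rfl
      rw [o, Fin.prod_univ_two]
      have h1 := hMge (2 * 2) (by norm_num)
      have h2 := hMge 1 (by norm_num)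
      have h2' := hMge 2 (by norm_num)
      have h3 := hMge (2 + 1) (by norm_num)
      have h4 : r ^ (2 * 2) / 65520 * ((r ^ 1 / 65520 * (r ^ 2 / 65520)) * (r ^ (2 + 1) / 65520)) ≤
          (M (2 * 2) : ℝ) * ((M 1 * M 2) * M (2 + 1)) :=
        mul_le_mul h1 (mul_le_mul (mul_le_mul h2 h2' (by positivity) (by positivity)) h3
          (by positivity) (by positivity)) (by positivity) (by positivity)
      have h5 : r ^ (2 * 2) / 65520 * ((r ^ 1 / 65520 * (r ^ 2 / 65520)) * (r ^ (2 + 1) / 65520)) =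
          r ^ 10 / 65520 ^ 4 := by
        ring
      rw [h5, div_le_iff₀ (by norm_num)] at h4
      push_cast
      refine h4.trans (le_of_eq ?_)
      show (M (2 * 2) : ℝ) * ((M 1 * M 2) * M (2 + 1)) * 65520 ^ 4 =
        65520 ^ 4 * ((M (2 * 2) : ℝ) * ((M 1 * M 2) * M (2 + 1)))
      ring
  · intro t ht
    obtain ⟨⟨m1, m2, m3⟩, hm, rfl⟩ := Finset.mem_image.1 ht
    rw [hS₀, Finset.mem_product, Finset.mem_product, Fintype.mem_piFinset, Finset.mem_range,
      Finset.mem_range] at hm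
    obtain ⟨hm1, hm2, hm3⟩ := hm
    simp only [Finset.mem_range] at hm1 hm2 hm3
    rw [hφ]
    simp only []
    have hxle : ∀ j, ((x₀ j + N * m2 j : ℕ) : ℝ) ≤ r ^ ((j : ℕ) + 1) / 72 := by
      intro j
      have h1 : x₀ j + N * m2 j ≤ N * M ((j : ℕ) + 1) := by
        calc x₀ j + N * m2 j ≤ N + N * m2 j := Nat.add_le_add_right (hx2' j) _
          _ = N * (m2 j + 1) := by ring
          _ ≤ N * M ((j : ℕ) + 1) := Nat.mul_le_mul_left _ (hm2 j)
      have h2 : ((x₀ j + N * m2 j : ℕ) : ℝ) ≤ (N : ℝ) * M ((j : ℕ) + 1) := by exact_mod_cast h1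
      exact h2.trans (hNM _)
    have hdle : ((d₀ + N * m1 : ℕ) : ℝ) ≤ r ^ (2 * k) / 72 := by
      have h1 : d₀ + N * m1 ≤ N * M (2 * k) := by
        calc d₀ + N * m1 ≤ N + N * m1 := Nat.add_le_add_right hd2 _
          _ = N * (m1 + 1) := by ring
          _ ≤ N * M (2 * k) := Nat.mul_le_mul_left _ hm1
      have h2 : ((d₀ + N * m1 : ℕ) : ℝ) ≤ (N : ℝ) * M (2 * k) := by exact_mod_cast h1
      exact h2.trans (hNM _)
    have hsd : Real.sqrt ((d₀ + N * m1 : ℕ) : ℝ) ≤ r ^ k / 8 := by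
      apply Real.sqrt_le_iff.2
      refine ⟨by positivity, hdle.trans ?_⟩
      have h1 : (r ^ k / 8) ^ 2 = r ^ (2 * k) / 64 := by
        rw [div_pow, ← pow_mul, mul_comm k 2]
        norm_num
      rw [h1]
      have : 0 ≤ r ^ (2 * k) := by positivity
      linarith
    have hgle : ((g m3 : ℕ) : ℝ) ≤ r ^ (k + 1) / 36 := by
      have h1 : ((g m3 : ℕ) : ℝ) ≤ 2 * ((N : ℝ) * M (k + 1)) := by
        have := hgN m3 _ hm3
        have h2 : ((g m3 : ℕ) : ℝ) ≤ ((2 * N * M (k + 1) : ℕ) : ℝ) := by exact_mod_cast this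
        refine h2.trans (le_of_eq ?_)
        push_cast
        ring
      have := hNM (k + 1)
      linarith
    have hkR : (k : ℝ) ≤ 2 := by exact_mod_cast hk2
    have hk0 : (0 : ℝ) ≤ (k : ℝ) := Nat.cast_nonneg k
    refine ⟨by omega, ⟨?_, ?_⟩, hgp m3, ?_, ?_, ?_⟩
    · intro j
      rw [hrq]
      have hrj : 0 ≤ r ^ ((j : ℕ) + 1) := by positivity
      have h1 : ‖al (d₀ + N * m1) (fun j => ((x₀ j + N * m2 j : ℕ) : ℤ)) y j‖ ≤
          r ^ ((j : ℕ) + 1) / 72 + r ^ ((j : ℕ) + 1) / 8 := by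
        unfold al
        refine (norm_add_le _ _).trans (add_le_add ?_ ?_)
        · rw [Int.cast_natCast, Complex.norm_natCast]
          exact hxle j
        · by_cases hj : (j : ℕ) + 1 = k
          · rw [hy1 j hj, Int.cast_one, one_mul, norm_mul, Complex.norm_I, mul_one,
              Complex.norm_real, Real.norm_eq_abs, abs_of_nonneg (Real.sqrt_nonneg _), hj]
            exact hsd
          · rw [hy0 j hj, Int.cast_zero, zero_mul, norm_zero]
            positivity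
      calc ((k : ℝ) + 1) * ‖al (d₀ + N * m1) (fun j => ((x₀ j + N * m2 j : ℕ) : ℤ)) y j‖
          ≤ 3 * (r ^ ((j : ℕ) + 1) / 72 + r ^ ((j : ℕ) + 1) / 8) :=
            mul_le_mul (by linarith) h1 (norm_nonneg _) (by norm_num)
        _ ≤ r ^ ((j : ℕ) + 1) := by linarith
    · rw [hrq, Int.cast_natCast, abs_of_nonneg (Nat.cast_nonneg _)]
      have hrj : 0 ≤ r ^ (k + 1) := by positivity
      calc ((k : ℝ) + 1) * ((g m3 : ℕ) : ℝ) ≤ 3 * (r ^ (k + 1) / 36) :=
            mul_le_mul (by linarith) hgle (Nat.cast_nonneg _) (by norm_num)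
        _ ≤ r ^ (k + 1) := by linarith
    · refine ⟨lA, inferInstance, sA, hlA2, hqA, hsA, ?_, ?_⟩
      · rw [Nat.cast_add, Nat.cast_mul, hNA, zero_mul, add_zero, hdA, neg_neg]
      · have e1 : (fun j => (((x₀ j + N * m2 j : ℕ) : ℤ) : ZMod lA) + sA * (y j : ZMod lA)) =
            fun j => xA j + sA * (if (j : ℕ) + 1 = k then 1 else 0) := by
          funext j
          rw [Int.cast_natCast, Nat.cast_add, Nat.cast_mul, hNA, zero_mul, add_zero, hxA, hy]
          simp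
        have e2 : (fun j => (((x₀ j + N * m2 j : ℕ) : ℤ) : ZMod lA) - sA * (y j : ZMod lA)) =
            fun j => xA j - sA * (if (j : ℕ) + 1 = k then 1 else 0) := by
          funext j
          rw [Int.cast_natCast, Nat.cast_add, Nat.cast_mul, hNA, zero_mul, add_zero, hxA, hy]
          simp
        have e3 : (((g m3 : ℕ) : ℤ) : ZMod lA) = bA := by
          rw [Int.cast_natCast, hg, Nat.cast_add, Nat.cast_mul, hNA, zero_mul, add_zero, hbA]
        rw [e1, e2, e3]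
        exact hPA
    · refine ⟨lB, inferInstance, 1, hlB2, hqB, one_ne_zero, ?_, ?_⟩
      · rw [Nat.cast_add, Nat.cast_mul, hNB, zero_mul, add_zero, hdB, neg_neg, one_pow]
      · have e1 : (fun j => (((x₀ j + N * m2 j : ℕ) : ℤ) : ZMod lB) + 1 * (y j : ZMod lB)) =
            fun j => (0 : ZMod lB) + 1 * (y j : ZMod lB) := by
          funext j
          rw [Int.cast_natCast, Nat.cast_add, Nat.cast_mul, hNB, zero_mul, add_zero, hxB]
        have e2 : (fun j => (((x₀ j + N * m2 j : ℕ) : ℤ) : ZMod lB) - 1 * (y j : ZMod lB)) =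
            fun j => (0 : ZMod lB) - 1 * (y j : ZMod lB) := by
          funext j
          rw [Int.cast_natCast, Nat.cast_add, Nat.cast_mul, hNB, zero_mul, add_zero, hxB]
        have e3 : (((g m3 : ℕ) : ℤ) : ZMod lB) = bB := by
          rw [Int.cast_natCast, hg, Nat.cast_add, Nat.cast_mul, hNB, zero_mul, add_zero, hbB]
        rw [e1, e2, e3]
        exact hPB
    · refine ⟨lC, inferInstance, sC, hlC2, hqC, hsC, ?_, ?_⟩
      · rw [Nat.cast_add, Nat.cast_mul, hNC, zero_mul, add_zero, hdC, neg_neg]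
      · have e1 : (fun j => (((x₀ j + N * m2 j : ℕ) : ℤ) : ZMod lC) + sC * (y j : ZMod lC)) =
            fun j => xC j + sC * (if (j : ℕ) + 1 = k then 1 else 0) := by
          funext j
          rw [Int.cast_natCast, Nat.cast_add, Nat.cast_mul, hNC, zero_mul, add_zero, hxC, hy]
          simp
        have e2 : (fun j => (((x₀ j + N * m2 j : ℕ) : ℤ) : ZMod lC) - sC * (y j : ZMod lC)) =
            fun j => xC j - sC * (if (j : ℕ) + 1 = k then 1 else 0) := by
          funext j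
          rw [Int.cast_natCast, Nat.cast_add, Nat.cast_mul, hNC, zero_mul, add_zero, hxC, hy]
          simp
        have e3 : (((g m3 : ℕ) : ℤ) : ZMod lC) = bC := by
          rw [Int.cast_natCast, hg, Nat.cast_add, Nat.cast_mul, hNC, zero_mul, add_zero, hbC]
        rw [e1, e2, e3]
        exact hPC
  · intro t ht t' ht' h
    rw [Finset.mem_coe, Finset.mem_image] at ht ht'
    obtain ⟨u, -, rfl⟩ := ht
    obtain ⟨u', -, rfl⟩ := ht'
    rw [hφ] at h ⊢
    simp only [] at h ⊢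
    obtain ⟨e1, e2, e3⟩ := inj_hC hk hy1 h
    rw [e1, e2, e3]

theorem b9c (hA : W4A) (hS : W4S) (hB : W4B) (hCa : B9a) (hCb : B9b) : B9c := by
  intro k hk
  rcases eq_or_lt_of_le hk with h | h
  · exact small hS hB hCb k h.symm
  · exact big hA hB hCa k h

end Pool.Agent.H390.SGb9c
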